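import Mathlib
import Pool.Agent.Lib.NK.Conv

set_option autoImplicit false

/-! Closed chains of exactly three links: the lemmas of `Pool.Agent.Lib.NK` with the number of links
kept (MP_c62493_co). -/

namespace Pool.Agent.Lib.NKT

open Finset Pool.Agent.Lib.NK
open scoped Classical

section basics
variable {V : Type*} {R R' : V → V → Prop}

/-- a closed chain of three links -/
def Neck (R : V → V → Prop) : Prop :=
  ∃ r a t S T, r = 2 ∧ Ch R r a t S ∧ Link R T t a ∧ ∀ x ∈ S, x ∈ T → x = a ∨ x = t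

theorem Neck.monoR (h : Neck R) (hR : ∀ a b, R a b → R' a b) : Neck R' := by
  obtain ⟨r, a, t, S, T, hr, h1, h2, h3⟩ := h
  exact ⟨r, a, t, S, T, hr, h1.change (fun a _ b _ => hR a b), h2.monoR hR, h3⟩

theorem Neck.rv (h : Neck R) : Neck (Rv R) := by
  obtain ⟨r, a, t, S, T, hr, h1, h2, h3⟩ := h
  exact ⟨r, a, t, S, T, hr, h1.rv, h2.rv, h3⟩

/-- the conclusion of the frozen statement with `ℓ = 3` -/
def Concl (R : V → V → Prop) : Prop :=
  ∃ (ℓ : ℕ) (b : ℕ → V) (n : ℕ → Bool → ℕ) (P : ℕ → Bool → ℕ → V),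
        ℓ = 3 ∧
        (∀ i j, i < ℓ → j < ℓ → b i = b j → i = j) ∧
        (∀ i, i < ℓ → ∀ d, 1 ≤ n i d) ∧
        (∀ i, i < ℓ →
          P i false 0 = b i ∧ P i false (n i false) = b ((i + 1) % ℓ) ∧
          P i true 0 = b ((i + 1) % ℓ) ∧ P i true (n i true) = b i) ∧
        (∀ i, i < ℓ → ∀ d, ∀ k, k < n i d → R (P i d k) (P i d (k + 1))) ∧
        (∀ i, i < ℓ → ∀ d, ∀ k, 0 < k → k < n i d → ∀ j, j < ℓ → P i d k ≠ b j) ∧
        (∀ i d k i' d' k', i < ℓ → i' < ℓ → 0 < k → k < n i d → 0 < k' → k' < n i' d' →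
          P i d k = P i' d' k' → i = i' ∧ d = d' ∧ k = k')

theorem Neck.concl (h : Neck R) : Concl R := by
  obtain ⟨r, a, t, S, T, hr, hch, hT, hST⟩ := h
  obtain ⟨j, E, h0, hjr, h1, h2, h3, h4⟩ := hch.fn
  -- injectivity of the joints
  have inj' : ∀ i i', i < i' → i' ≤ r → j i ≠ j i' := by
    intro i i' hii hi' he
    by_cases h5 : i' = i + 1
    · subst h5; exact (h1 i (by omega)).ne he
    · have hL := (h1 i (by omega)).left
      have hR := (h1 (i' - 1) (by omega)).right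
      have h6 : i' - 1 + 1 = i' := by omega
      rw [h6, ← he] at hR
      have h7 := h4 i (i' - 1) (by omega) (by omega) (j i) hL hR
      have h8 : i' - 1 = i + 1 := h7.1
      rw [h8] at h7
      exact (h1 i (by omega)).ne h7.2
  have inj : ∀ i i', i ≤ r → i' ≤ r → j i = j i' → i = i' := by
    intro i i' hi hi' he
    rcases lt_trichotomy i i' with h | h | h
    · exact absurd he (inj' i i' h hi')
    · exact h
    · exact absurd he.symm (inj' i' i h hi)
  -- the links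
  obtain ⟨F, hF⟩ : ∃ F : ℕ → Finset V, F = fun i => if i < r then E i else T := ⟨_, rfl⟩
  have hFr : ∀ i, i < r → F i = E i := by intro i hi; rw [hF]; simp [hi]
  have hFT : F r = T := by rw [hF]; simp
  have mod1 : ∀ i, i < r → (i + 1) % (r + 1) = i + 1 := by
    intro i hi; exact Nat.mod_eq_of_lt (by omega)
  have mod2 : (r + 1) % (r + 1) = 0 := Nat.mod_self _
  have hlink : ∀ i, i < r + 1 → Link R (F i) (j i) (j ((i + 1) % (r + 1))) := by
    intro i hi
    by_cases hir : i < r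
    · rw [hFr i hir, mod1 i hir]; exact h1 i hir
    · have : i = r := by omega
      subst this
      rw [hFT, mod2, h0, hjr]; exact hT
  have hbeta : ∀ i i', i < i' → i' < r + 1 → ∀ x ∈ F i, x ∈ F i' → ∃ k, k < r + 1 ∧ x = j k := by
    intro i i' hii hi' x hx hx'
    have hir : i < r := by omega
    rw [hFr i hir] at hx
    by_cases hir' : i' < r
    · rw [hFr i' hir'] at hx'
      exact ⟨i', by omega, (h4 i i' hii hir' x hx hx').2⟩
    · have : i' = r := by omega
      subst this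
      rw [hFT] at hx'
      rcases hST x (h2 i hir hx) hx' with h | h
      · exact ⟨0, by omega, by rw [h0]; exact h⟩
      · exact ⟨i', by omega, by rw [hjr]; exact h⟩
  have hgamma : ∀ i k, i < r + 1 → k < r + 1 → j k ∈ F i → k = i ∨ k = (i + 1) % (r + 1) := by
    intro i k hi hk hm
    by_cases hir : i < r
    · rw [hFr i hir] at hm
      rw [mod1 i hir]
      rcases lt_trichotomy k i with h | h | h
      · exfalso
        have := h4 k i h hir (j k) (h1 k (by omega)).left hm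
        exact absurd (inj k i (by omega) (by omega) this.2) (by omega)
      · exact Or.inl h
      · by_cases h5 : k = i + 1
        · exact Or.inr h5
        · exfalso
          have hR := (h1 (k - 1) (by omega)).right
          have h6 : k - 1 + 1 = k := by omega
          rw [h6] at hR
          have := h4 i (k - 1) (by omega) (by omega) (j k) hm hR
          exact absurd (inj k (k - 1) (by omega) (by omega) this.2) (by omega)
    · have : i = r := by omega
      subst this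
      rw [hFT] at hm
      rw [mod2]
      rcases hST _ (h3 k (by omega)) hm with h | h
      · right; exact inj k 0 (by omega) (by omega) (by rw [h0]; exact h)
      · left; exact inj k i (by omega) (by omega) (by rw [hjr]; exact h)
  -- choose the paths
  have hch : ∀ i, ∃ (n : Bool → ℕ) (P : Bool → ℕ → V), i < r + 1 → ((∀ d, 1 ≤ n d) ∧ P false 0 = j i ∧
      P false (n false) = j ((i + 1) % (r + 1)) ∧
      P true 0 = j ((i + 1) % (r + 1)) ∧ P true (n true) = j i ∧ (∀ d k, k < n d → R (P d k) (P d (k + 1))) ∧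
      (∀ d k, 0 < k → k < n d → P d k ∈ F i ∧ P d k ≠ j i ∧ P d k ≠ j ((i + 1) % (r + 1))) ∧
      (∀ d d' k k', 0 < k → k < n d → 0 < k' → k' < n d' → P d k = P d' k' → d = d' ∧ k = k')) := by
    intro i
    by_cases hi : i < r + 1
    · obtain ⟨n, P, h⟩ := (hlink i hi).fn
      exact ⟨n, P, fun _ => h⟩
    · exact ⟨fun _ => 0, fun _ _ => j 0, fun h => absurd h hi⟩
  choose n P hnP using hch
  have hjoint : ∀ i, i < r + 1 → ∀ d, ∀ k, 0 < k → k < n i d → ∀ m, m < r + 1 → P i d k ≠ j m := by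
    intro i hi d k h0k hk m hm he
    obtain ⟨_, _, _, _, _, _, h7, _⟩ := hnP i hi
    have := h7 d k h0k hk
    rw [he] at this
    rcases hgamma i m hi hm this.1 with h | h
    · subst h; exact this.2.1 rfl
    · subst h; exact this.2.2 rfl
  refine ⟨r + 1, j, n, P, by omega, fun i i' hi hi' he => inj i i' (by omega) (by omega) he, ?_, ?_, ?_,
    hjoint, ?_⟩
  · intro i hi; exact (hnP i hi).1
  · intro i hi
    obtain ⟨_, h2, h3, h4, h5, _⟩ := hnP i hi
    exact ⟨h2, h3, h4, h5⟩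
  · intro i hi
    obtain ⟨_, h2, h3, h4, h5, h6, _⟩ := hnP i hi
    exact h6
  · intro i d k i' d' k' hi hi' h0k hk h0k' hk' he
    obtain ⟨_, _, _, _, _, _, h7, h8⟩ := hnP i hi
    obtain ⟨_, _, _, _, _, _, h7', h8'⟩ := hnP i' hi'
    rcases lt_trichotomy i i' with h | h | h
    · exfalso
      obtain ⟨m, hm, hx⟩ := hbeta i i' h hi' _ (h7 d k h0k hk).1 (he ▸ (h7' d' k' h0k' hk').1)
      exact hjoint i hi d k h0k hk m hm hx
    · subst h
      exact ⟨rfl, h8 d d' k k' h0k hk h0k' hk' he⟩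
    · exfalso
      obtain ⟨m, hm, hx⟩ := hbeta i' i h hi _ (h7' d' k' h0k' hk').1 (he ▸ (h7 d k h0k hk).1)
      exact hjoint i' hi' d' k' h0k' hk' m hm hx

end basics

section ring
variable {V : Type*} {R : V → V → Prop}

/-- a closed chain with three links -/
def Ring (R : V → V → Prop) (a t : V) (S T : Finset V) : Prop :=
  ∃ r, r = 2 ∧ Ch R r a t S ∧ Link R T t a ∧ ∀ x ∈ S, x ∈ T → x = a ∨ x = t

theorem Ring.neck {a t : V} {S T : Finset V} (h : Ring R a t S T) : Neck R := by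
  obtain ⟨r, h1, h2, h3, h4⟩ := h
  exact ⟨r, a, t, S, T, h1, h2, h3, h4⟩

theorem Ring.symm {a t : V} {S T : Finset V} (h : Ring R a t S T) : Ring R t a S T := by
  obtain ⟨r, h1, h2, h3, h4⟩ := h
  exact ⟨r, h1, h2.symm, h3.symm, fun x hx hx' => (h4 x hx hx').symm⟩

/-- rotate a ring so that a given vertex lies in the closing link -/
theorem Ring.at {a t : V} {S T : Finset V} (h : Ring R a t S T) {z : V} (hz : z ∈ S ∪ T) :
    ∃ a' t' S' T', Ring R a' t' S' T' ∧ z ∈ T' ∧ S' ∪ T' = S ∪ T := by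
  by_cases hzT : z ∈ T
  · exact ⟨a, t, S, T, h, hzT, rfl⟩
  obtain ⟨r, h1, h2, h3, h4⟩ := h
  have hzS : z ∈ S := (mem_union.mp hz).resolve_right hzT
  obtain ⟨r1, r2, a1, a2, S1, E, S2, g1, g2, g3, g4, g5, g6, g7, g8⟩ := h2.at (by omega) hzS
  subst g6
  have c1 : Ch R (1 + r1) t a1 (T ∪ S1) := by
    have h5 : Ch R 1 t a (T ∪ {a}) := Ch.cons h3 (Ch.nil a) (by intro x _ hx; simpa using hx)
    have h6 : T ∪ {a} = T := by
      rw [union_eq_left, singleton_subset_iff]; exact h3.right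
    rw [h6] at h5
    refine h5.append g1 ?_
    intro x hx hx'
    rcases h4 x (mem_union_left _ hx') hx with h7 | h7
    · exact h7
    · subst h7
      have h8 : x = a1 := g7 x hx' (mem_union_right _ g3.right)
      subst h8
      exact absurd (g8 x g2.left g3.right) g2.ne
  have c2 : Ch R (r2 + (1 + r1)) a2 a1 (S2 ∪ (T ∪ S1)) := by
    refine g3.append c1 ?_
    intro x hx hx'
    rcases mem_union.mp hx' with hx' | hx'
    · rcases h4 x (mem_union_right _ (mem_union_right _ hx)) hx' with h7 | h7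
      · subst h7
        have h8 : x = a1 := g7 x g1.left (mem_union_right _ hx)
        subst h8
        exact absurd (g8 x g2.left hx) g2.ne
      · exact h7
    · have h8 : x = a1 := g7 x hx' (mem_union_right _ hx)
      subst h8
      exact absurd (g8 x g2.left hx) g2.ne
  refine ⟨a2, a1, S2 ∪ (T ∪ S1), E, ⟨r2 + (1 + r1), by omega, c2, g2, ?_⟩, g4, ?_⟩
  · intro x hx hxE
    rcases mem_union.mp hx with hx | hx
    · exact Or.inl (g8 x hxE hx)
    rcases mem_union.mp hx with hx | hx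
    · rcases h4 x (mem_union_right _ (mem_union_left _ hxE)) hx with h7 | h7
      · subst h7
        exact Or.inr (g7 x g1.left (mem_union_left _ hxE))
      · subst h7
        exact Or.inl (g8 x hxE g3.right)
    · exact Or.inr (g7 x hx (mem_union_left _ hxE))
  · ext x
    simp only [mem_union]
    tauto

end ring

section dom
variable {V : Type*} {R : V → V → Prop} {D : Finset V}

theorem Neck.ringDom (h : Neck R) (hR : ∀ a b, R a b → a ∈ D ∧ b ∈ D) :
    ∃ a t S T, Ring R a t S T ∧ S ⊆ D ∧ T ⊆ D := by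
  obtain ⟨r, a, t, S, T, hr, h1, h2, h3⟩ := h
  have hl := h2.dom hR
  exact ⟨a, t, S ∩ D, T ∩ D, ⟨r, hr, h1.dom (mem_inter.mp hl.right).2 hR, hl,
    fun x hx hx' => h3 x (mem_inter.mp hx).1 (mem_inter.mp hx').1⟩, inter_subset_right, inter_subset_right⟩

end dom

section nf
variable {V : Type*} {R R' : V → V → Prop} {z : V} {U : V → Prop}

/-- the vertex is in the interior of a link -/
theorem nf_int (hR' : ∀ a b, R' a b → R a b ∨ (b = z ∧ U a)) {D : Finset V} {a t : V}
    {S T : Finset V} (h : Ring R' a t S T) (hTD : T ⊆ D) (hSD : S ⊆ D) (hzS : z ∉ S) :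
    Neck R ∨ (∃ u ∈ D, U u ∧ u ≠ z ∧
      ∀ B, Rc R B u z → (∀ x ∈ B, x ∈ D → x = u ∨ x = z) → Neck R) := by
  obtain ⟨r, hr, hch, hT, hST⟩ := h
  have hch' : Ch R r a t S := by
    refine hch.change ?_
    intro p hp q hq hpq
    rcases hR' p q hpq with h1 | ⟨h1, _⟩
    · exact h1
    · exact absurd (h1 ▸ hq) hzS
  obtain ⟨h0, T1, T2, h1, h2, h3, h4, h5⟩ := hT
  have hta : t ≠ z := by rintro rfl; exact hzS hch.right
  have haz : a ≠ z := by rintro rfl; exact hzS hch.left
  have key : ∀ T1 T2 t a, t ≠ a → t ≠ z → a ≠ z → (t ∈ S) → (a ∈ S) → Rc R' T1 t a → Rc R T2 a t →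
      (∀ x ∈ T1, x ∈ T2 → x = t ∨ x = a) → T1 ⊆ T → T2 ⊆ T → Ch R r a t S →
      (∀ x ∈ S, x ∈ T → x = a ∨ x = t) → 
      Neck R ∨ (∃ u ∈ D, U u ∧ u ≠ z ∧
      ∀ B, Rc R B u z → (∀ x ∈ B, x ∈ D → x = u ∨ x = z) → Neck R) := by
    intro T1 T2 t a h0 hta haz htS haS h1 h2 h3 h4 h5 hch hST
    rcases toR_through hR' h1 hta with h6 | ⟨u, hu, huz, hzT1, hU, h6⟩
    · exact Or.inl ⟨r, a, t, S, T, hr, hch, ⟨h0, T1, T2, h6, h2, h3, h4, h5⟩, hST⟩
    · right
      refine ⟨u, hTD (h4 hu), hU, huz, ?_⟩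
      intro B hB hBD
      have hzT2 : z ∉ T2 := by
        intro hz2
        rcases h3 z hzT1 hz2 with h7 | h7
        · exact hta h7.symm
        · exact haz h7.symm
      refine ⟨r, a, t, S, T ∪ B, hr, hch, ⟨h0, T1 ∪ B, T2, h6 B hB, h2, ?_,
        union_subset_union_left h4, h5.trans subset_union_left⟩, ?_⟩
      · intro x hx hx'
        rcases mem_union.mp hx with hx | hx
        · exact h3 x hx hx'
        · rcases hBD x hx (hTD (h5 hx')) with h7 | h7
          · subst h7; exact h3 x hu hx'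
          · subst h7; exact absurd hx' hzT2
      · intro x hx hx'
        rcases mem_union.mp hx' with hx' | hx'
        · exact hST x hx hx'
        · rcases hBD x hx' (hSD hx) with h7 | h7
          · subst h7; exact hST x hx (h4 hu)
          · subst h7; exact absurd hx hzS
  by_cases hz1 : z ∈ T1
  · have hz2 : z ∉ T2 := by
      intro hz2
      rcases h3 z hz1 hz2 with h7 | h7
      · exact hta h7.symm
      · exact haz h7.symm
    exact key T1 T2 t a h0 hta haz hch.right hch.left h1 (toR_avoid hR' h2 hz2) h3 h4 h5 hch' hST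
  · exact key T2 T1 a t h0.symm haz hta hch.left hch.right h2 (toR_avoid hR' h1 hz1)
      (fun x hx hx' => (h3 x hx' hx).symm) h5 h4 hch'.symm (fun x hx hx' => (hST x hx hx').symm)

/-- the vertex is a joint -/
theorem nf_joint (hR' : ∀ a b, R' a b → R a b ∨ (b = z ∧ U a)) {D : Finset V} {t : V}
    {S T : Finset V} (h : Ring R' z t S T) (hTD : T ⊆ D) (hSD : S ⊆ D) :
    Neck R ∨ (∃ u ∈ D, U u ∧ u ≠ z ∧
      ∀ B, Rc R B u z → (∀ x ∈ B, x ∈ D → x = u ∨ x = z) → Neck R) ∨
    (∃ u1 ∈ D, ∃ u2 ∈ D, u1 ≠ u2 ∧ u1 ≠ z ∧ u2 ≠ z ∧ U u1 ∧ U u2 ∧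
      (∀ B1 B2, Rc R B1 u1 z → Rc R B2 u2 z → (∀ x ∈ B1, x ∈ D → x = u1 ∨ x = z) →
        (∀ x ∈ B2, x ∈ D → x = u2 ∨ x = z) → (∀ x ∈ B1, x ∈ B2 → x = z) → Neck R) ∧
      ∃ P1 P2, P1 ⊆ D ∧ P2 ⊆ D ∧ Rc R P1 z u1 ∧ Rc R P2 z u2 ∧ ∀ x ∈ P1, x ∈ P2 → x = z) := by
  obtain ⟨r, hr, hch, hT, hST⟩ := h
  obtain ⟨r, rfl⟩ : ∃ s, r = s + 1 := ⟨r - 1, by omega⟩
  cases hch with
  | @cons _ _ m _ E S0 hE hch0 hES =>
  have hmt : m ≠ t := hch0.ne (by omega)
  have hzm : z ≠ m := hE.ne
  have hzS0 : z ∉ S0 := fun hz => hzm (hES z hE.left hz)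
  have hch1 : Ch R r m t S0 := by
    refine hch0.change ?_
    intro p hp q hq hpq
    rcases hR' p q hpq with h1 | ⟨h1, _⟩
    · exact h1
    · exact absurd (h1 ▸ hq) hzS0
  have htE : t ∉ E := fun ht => hmt (hES t ht hch0.right).symm
  obtain ⟨hz0, E1, E2, e1, e2, e3, e4, e5⟩ := hE
  obtain ⟨ht0, T1, T2, t1, t2, t3, t4, t5⟩ := hT
  obtain ⟨u1, hu1, q1⟩ := toR_in hR' t1 ht0
  obtain ⟨u2, hu2, q2⟩ := toR_in hR' e2 hz0.symm
  have e1' := toR_out hR' e1
  have t2' := toR_out hR' t2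
  have hu1T1 : u1 ∈ T1 := (mem_erase.mp q1.right).2
  have hu2E2 : u2 ∈ E2 := (mem_erase.mp q2.right).2
  have hu1z : u1 ≠ z := (mem_erase.mp q1.right).1
  have hu2z : u2 ≠ z := (mem_erase.mp q2.right).1
  have hET : ∀ x ∈ E, x ∈ T → x = z := by
    intro x hx hx'
    rcases hST x (mem_union_left _ hx) hx' with h1 | h1
    · exact h1
    · exact absurd (h1 ▸ hx) htE
  have hS0T : ∀ x ∈ S0, x ∈ T → x = t := by
    intro x hx hx'
    rcases hST x (mem_union_right _ hx) hx' with h1 | h1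
    · exact absurd (h1 ▸ hx) hzS0
    · exact h1
  have hED : E ⊆ D := subset_union_left.trans hSD
  have hS0D : S0 ⊆ D := subset_union_right.trans hSD
  have hne : u1 ≠ u2 := by
    rintro rfl
    exact hu1z (hET u1 (e5 hu2E2) (t4 hu1T1))
  -- general assembly
  have build : ∀ B1 B2, Rc R (T1 ∪ B1) t z → Rc R (E2 ∪ B2) m z →
      (∀ x ∈ B1, x ∈ D → x = u1 ∨ x = z) → (∀ x ∈ B2, x ∈ D → x = u2 ∨ x = z) →
      (∀ x ∈ B1, x ∈ B2 → x = z) → Neck R := by
    intro B1 B2 hB1 hB2 hD1 hD2 hB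
    have hL1 : Link R (T ∪ B1) t z := by
      refine ⟨ht0, T1 ∪ B1, T2, hB1, t2', ?_, union_subset_union_left t4, t5.trans subset_union_left⟩
      intro x hx hx'
      rcases mem_union.mp hx with hx | hx
      · exact t3 x hx hx'
      · rcases hD1 x hx (hTD (t5 hx')) with h7 | h7
        · subst h7; exact t3 x hu1T1 hx'
        · exact Or.inr h7
    have hL2 : Link R (E ∪ B2) z m := by
      refine ⟨hz0, E1, E2 ∪ B2, e1', hB2, ?_, e4.trans subset_union_left, union_subset_union_left e5⟩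
      intro x hx hx'
      rcases mem_union.mp hx' with hx' | hx'
      · exact e3 x hx hx'
      · rcases hD2 x hx' (hED (e4 hx)) with h7 | h7
        · subst h7; exact e3 x hx hu2E2
        · exact Or.inl h7
    refine ⟨r + 1, z, t, (E ∪ B2) ∪ S0, T ∪ B1, hr, Ch.cons hL2 hch1 ?_, hL1, ?_⟩
    · intro x hx hx'
      rcases mem_union.mp hx with hx | hx
      · exact hES x hx hx'
      · rcases hD2 x hx (hS0D hx') with h7 | h7
        · subst h7; exact hES x (e5 hu2E2) hx'
        · subst h7; exact absurd hx' hzS0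
    · intro x hx hx'
      rcases mem_union.mp hx with hx | hx
      · rcases mem_union.mp hx with hx | hx
        · rcases mem_union.mp hx' with hx' | hx'
          · exact Or.inl (hET x hx hx')
          · rcases hD1 x hx' (hED hx) with h7 | h7
            · subst h7; exact Or.inl (hET x hx (t4 hu1T1))
            · exact Or.inl h7
        · rcases mem_union.mp hx' with hx' | hx'
          · rcases hD2 x hx (hTD hx') with h7 | h7
            · subst h7; exact Or.inl (hET x (e5 hu2E2) hx')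
            · exact Or.inl h7
          · exact Or.inl (hB x hx' hx)
      · rcases mem_union.mp hx' with hx' | hx'
        · exact Or.inr (hS0T x hx hx')
        · rcases hD1 x hx' (hS0D hx) with h7 | h7
          · subst h7; exact Or.inr (hS0T x hx (t4 hu1T1))
          · subst h7; exact absurd hx hzS0
  have hzT1 : z ∈ T1 := t1.right
  have hzE2 : z ∈ E2 := e2.right
  have viaR1 : R u1 z → Rc R (T1 ∪ ∅) t z := fun h => by
    rw [union_empty]; exact (q1.mono (erase_subset _ _)).tail h hzT1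
  have viaR2 : R u2 z → Rc R (E2 ∪ ∅) m z := fun h => by
    rw [union_empty]; exact (q2.mono (erase_subset _ _)).tail h hzE2
  have viaB1 : ∀ B, Rc R B u1 z → Rc R (T1 ∪ B) t z := fun B hB =>
    (q1.mono (erase_subset _ _)).trans' hB subset_union_left subset_union_right
  have viaB2 : ∀ B, Rc R B u2 z → Rc R (E2 ∪ B) m z := fun B hB =>
    (q2.mono (erase_subset _ _)).trans' hB subset_union_left subset_union_right
  rcases hR' u1 z hu1 with h1 | ⟨_, h1⟩
  · rcases hR' u2 z hu2 with h2 | ⟨_, h2⟩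
    · exact Or.inl (build ∅ ∅ (viaR1 h1) (viaR2 h2) (by simp) (by simp) (by simp))
    · refine Or.inr (Or.inl ⟨u2, hED (e5 hu2E2), h2, hu2z, ?_⟩)
      intro B hB hBD
      exact build ∅ B (viaR1 h1) (viaB2 B hB) (by simp) hBD (by simp)
  · rcases hR' u2 z hu2 with h2 | ⟨_, h2⟩
    · refine Or.inr (Or.inl ⟨u1, hTD (t4 hu1T1), h1, hu1z, ?_⟩)
      intro B hB hBD
      exact build B ∅ (viaB1 B hB) (viaR2 h2) hBD (by simp) (by simp)
    · refine Or.inr (Or.inr ⟨u1, hTD (t4 hu1T1), u2, hED (e5 hu2E2), hne, hu1z, hu2z, h1, h2, ?_,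
        T, E, hTD, hED, ?_, ?_, ?_⟩)
      · intro B1 B2 hB1 hB2 hD1 hD2 hB
        exact build B1 B2 (viaB1 B1 hB1) (viaB2 B2 hB2) hD1 hD2 hB
      · exact (t2'.mono t5).trans (q1.mono ((erase_subset _ _).trans t4))
      · exact (e1'.mono e4).trans (q2.mono ((erase_subset _ _).trans e5))
      · intro x hx hx'
        exact hET x hx' hx

/-- normal form -/
theorem nf (hR' : ∀ a b, R' a b → R a b ∨ (b = z ∧ U a)) {D : Finset V}
    (hD : ∀ a b, R' a b → a ∈ D ∧ b ∈ D) (h : Neck R') :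
    Neck R ∨ (∃ u ∈ D, U u ∧ u ≠ z ∧
      ∀ B, Rc R B u z → (∀ x ∈ B, x ∈ D → x = u ∨ x = z) → Neck R) ∨
    (∃ u1 ∈ D, ∃ u2 ∈ D, u1 ≠ u2 ∧ u1 ≠ z ∧ u2 ≠ z ∧ U u1 ∧ U u2 ∧
      (∀ B1 B2, Rc R B1 u1 z → Rc R B2 u2 z → (∀ x ∈ B1, x ∈ D → x = u1 ∨ x = z) →
        (∀ x ∈ B2, x ∈ D → x = u2 ∨ x = z) → (∀ x ∈ B1, x ∈ B2 → x = z) → Neck R) ∧
      ∃ P1 P2, P1 ⊆ D ∧ P2 ⊆ D ∧ Rc R P1 z u1 ∧ Rc R P2 z u2 ∧ ∀ x ∈ P1, x ∈ P2 → x = z) := by
  obtain ⟨a, t, S, T, hring, hS, hT⟩ := h.ringDom hD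
  by_cases hz : z ∈ S ∪ T
  · obtain ⟨a', t', S', T', hr', hz', hU⟩ := hring.at hz
    have hSub : S' ∪ T' ⊆ D := by rw [hU]; exact union_subset hS hT
    have hS' : S' ⊆ D := subset_union_left.trans hSub
    have hT' : T' ⊆ D := subset_union_right.trans hSub
    by_cases hzS : z ∈ S'
    · obtain ⟨r, h1, h2, h3, h4⟩ := hr'
      rcases h4 z hzS hz' with h5 | h5
      · subst h5
        exact nf_joint hR' ⟨r, h1, h2, h3, h4⟩ hT' hS'
      · subst h5
        exact nf_joint hR' (Ring.symm ⟨r, h1, h2, h3, h4⟩) hT' hS'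
    · rcases nf_int hR' hr' hT' hS' hzS with h1 | h1
      · exact Or.inl h1
      · exact Or.inr (Or.inl h1)
  · left
    obtain ⟨r, h1, h2, h3, h4⟩ := hring
    rw [mem_union, not_or] at hz
    refine ⟨r, a, t, S, T, h1, h2.change ?_, h3.change ?_, h4⟩
    · intro p hp q hq hpq
      rcases hR' p q hpq with h5 | ⟨h5, _⟩
      · exact h5
      · exact absurd (h5 ▸ hq) hz.1
    · intro p hp q hq hpq
      rcases hR' p q hpq with h5 | ⟨h5, _⟩
      · exact h5
      · exact absurd (h5 ▸ hq) hz.2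

end nf

section local'
variable {V : Type*} {R : V → V → Prop} {S : Finset V}

theorem neck_three {E F G : Finset V} {a m t : V} (h1 : Link R E a m) (h2 : Link R F m t)
    (h3 : Link R G t a) (hEF : ∀ x ∈ E, x ∈ F → x = m) (hFG : ∀ x ∈ F, x ∈ G → x = t)
    (hEG : ∀ x ∈ E, x ∈ G → x = a) : Neck R := by
  refine ⟨2, a, t, E ∪ (F ∪ {t}), G, rfl, Ch.cons h1 (Ch.cons h2 (Ch.nil t) ?_) ?_, h3, ?_⟩
  · intro x _ hx; simpa using hx
  · intro x hx hx'
    rcases mem_union.mp hx' with hx' | hx'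
    · exact hEF x hx hx'
    · rw [mem_singleton] at hx'; subst hx'
      exact absurd (hEG _ hx h3.left) h3.ne
  · intro x hx hx'
    simp only [mem_union, mem_singleton] at hx
    rcases hx with hx | hx | hx
    · exact Or.inl (hEG x hx hx')
    · exact Or.inr (hFG x hx hx')
    · exact Or.inr hx

/-- the out-neighbourhood of a vertex is acyclic -/
theorem out_ac [Fintype V] (hirr : ∀ v, ¬ R v v) (h : TwoStr R S) (hN : ¬ Neck R) {v : V}
    (hv : v ∈ S) : Ac R (S.filter (fun b => R v b)) := by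
  by_contra hac
  obtain ⟨g, hg, hC, x, hx, y, hy, hxy⟩ := exists_circ_of_not_ac hirr hac
  have hgS : ∀ z ∈ g, z ∈ S ∧ R v z := fun z hz => mem_filter.mp (hg hz)
  have hgv : ∀ z ∈ g, z ≠ v := by
    rintro z hz rfl; exact hirr _ (hgS _ hz).2
  have step : ∀ z ∈ S, ∀ a ∈ g, a ≠ z → z ≠ v → ∃ u, R u v ∧ Rc R ((S.erase z).erase v) a u := by
    intro z hz a ha haz hzv
    exact (h.2 z hz a (mem_erase.mpr ⟨haz, (hgS a ha).1⟩) v (mem_erase.mpr ⟨hzv.symm, hv⟩)).inn (hgv a ha)
  obtain ⟨S1, S2, a1, b1, a2, b2, g1, g2, ha1, ha2, hb1, hb2, r1, r2, hdis⟩ :=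
    menger2 (R := R) (X := S.erase v) (fun a => a ∈ g) (fun b => R b v) x (by
      intro z
      by_cases hz : z ∈ S ∧ z ≠ v
      · obtain ⟨a, ha, haz⟩ : ∃ a ∈ g, a ≠ z := by
          by_cases h1 : x = z
          · exact ⟨y, hy, fun e => hxy (h1.trans e.symm)⟩
          · exact ⟨x, hx, h1⟩
        obtain ⟨u, hu, hr⟩ := step z hz.1 a ha haz hz.2
        refine ⟨a, u, ha, hu, hr.mono ?_⟩
        intro w hw
        simp only [mem_erase] at hw ⊢
        tauto
      · obtain ⟨u, hu, hr⟩ := step y (hgS y hy).1 x hx hxy (hgv y hy)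
        refine ⟨x, u, hx, hu, hr.mono ?_⟩
        intro w hw
        simp only [mem_erase] at hw ⊢
        refine ⟨?_, hw.1, hw.2.2⟩
        rintro rfl
        exact hz ⟨hw.2.2, hw.1⟩)
  obtain ⟨x1, hx1, _, T1, hT1, q1, k1⟩ := r1.lastHit (fun a => a ∈ g) ha1
  obtain ⟨x2, hx2, _, T2, hT2, q2, k2⟩ := r2.lastHit (fun a => a ∈ g) ha2
  have hne : x1 ≠ x2 := by
    rintro rfl
    exact hdis _ (hT1 q1.left) (hT2 q2.left)
  have hvT1 : v ∉ T1 := fun hh => (mem_erase.mp (g1 (hT1 hh))).1 rfl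
  have hvT2 : v ∉ T2 := fun hh => (mem_erase.mp (g2 (hT2 hh))).1 rfl
  have lk : ∀ (T : Finset V) (x b : V), x ∈ g → Rc R T x b → R b v → Link R (insert v T) v x := by
    intro T x b hx hr hb
    refine ⟨(hgv x hx).symm, {v, x}, insert v T, Rc.step (hgS x hx).2 (by simp) (by simp),
      (hr.mono (subset_insert _ _)).tail hb (mem_insert_self _ _), ?_, ?_, Subset.refl _⟩
    · intro z hz _; simpa using hz
    · intro z hz
      rcases mem_insert.mp hz with h1 | h1
      · exact h1 ▸ mem_insert_self _ _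
      · rw [mem_singleton] at h1; exact h1 ▸ mem_insert_of_mem hr.left
  refine hN (neck_three (lk T1 x1 b1 hx1 q1 hb1) (hC.link hx1 hx2 hne) (lk T2 x2 b2 hx2 q2 hb2).symm
    ?_ ?_ ?_)
  · intro z hz hz'
    rcases mem_insert.mp hz with h1 | h1
    · exact absurd h1 (hgv z hz')
    · exact k1 z h1 hz'
  · intro z hz' hz
    rcases mem_insert.mp hz with h1 | h1
    · exact absurd h1 (hgv z hz')
    · exact k2 z h1 hz'
  · intro z hz hz'
    rcases mem_insert.mp hz with h1 | h1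
    · exact h1
    · rcases mem_insert.mp hz' with h2 | h2
      · exact h2
      · exact absurd (hT2 h2) (hdis z (hT1 h1))

/-- the in-neighbourhood of a vertex is acyclic -/
theorem in_ac [Fintype V] (hirr : ∀ v, ¬ R v v) (h : TwoStr R S) (hN : ¬ Neck R) {v : V}
    (hv : v ∈ S) : Ac R (S.filter (fun b => R b v)) := by
  have h1 := out_ac (R := Rv R) hirr h.rv (fun hh => hN hh.rv) hv
  exact h1.rv

end local'

end Pool.Agent.Lib.NKT
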