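import Mathlib
import Pool.Agent.Lib.NKT.Base

set_option autoImplicit false

/-! Digraphs in which any two in-neighbours of a vertex are adjacent (MP_c62493_co). -/

namespace Pool.Agent.Lib.NKT

open Finset Pool.Agent.Lib.NK
open scoped Classical

section layers

variable {V : Type*} {R : V → V → Prop} {S : Finset V}

/-- any two in-neighbours of a vertex are adjacent, inside `S` -/
def Lis (R : V → V → Prop) (S : Finset V) : Prop :=
  ∀ v ∈ S, ∀ x ∈ S, ∀ y ∈ S, R x v → R y v → x ≠ y → R x y ∨ R y x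

theorem Lis.mono {T : Finset V} (h : Lis R S) (hT : T ⊆ S) : Lis R T :=
  fun v hv x hx y hy => h v (hT hv) x (hT hx) y (hT hy)

/-- `d` is a distance from `r` -/
structure Dist (R : V → V → Prop) (S : Finset V) (r : V) (d : V → ℕ) : Prop where
  mem : r ∈ S
  root : d r = 0
  zero : ∀ x ∈ S, d x = 0 → x = r
  succ : ∀ x ∈ S, ∀ n, d x = n + 1 → ∃ y ∈ S, d y = n ∧ R y x
  le : ∀ x ∈ S, ∀ y ∈ S, R x y → d y ≤ d x + 1

/-- balls -/
noncomputable def bl (R : V → V → Prop) (S : Finset V) (r : V) : ℕ → Finset V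
  | 0 => {r}
  | n + 1 => bl R S r n ∪ S.filter (fun y => ∃ x ∈ bl R S r n, R x y)

theorem exists_dist {r : V} (hr : r ∈ S) (h : ∀ x ∈ S, Rc R S r x) : ∃ d, Dist R S r d := by
  have hsub : ∀ n, bl R S r n ⊆ S := by
    intro n
    induction n with
    | zero => simpa [bl] using hr
    | succ n ih => exact union_subset ih (filter_subset _ _)
  have hmono : ∀ n m, n ≤ m → bl R S r n ⊆ bl R S r m := by
    intro n m hnm
    induction m, hnm using Nat.le_induction with
    | base => exact Subset.refl _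
    | succ m _ ih => exact ih.trans subset_union_left
  have hstep : ∀ n x y, x ∈ bl R S r n → y ∈ S → R x y → y ∈ bl R S r (n + 1) := by
    intro n x y hx hy hxy
    exact mem_union_right _ (mem_filter.mpr ⟨hy, x, hx, hxy⟩)
  have hex : ∀ x ∈ S, ∃ n, x ∈ bl R S r n := by
    intro x hx
    refine Rc.induct (p := fun x => ∃ n, x ∈ bl R S r n) ?_ ?_ (h x hx)
    · intro _; exact ⟨0, by simp [bl]⟩
    · rintro a b _ ⟨n, hn⟩ hab hb
      exact ⟨n + 1, hstep n a b hn hb hab⟩
  refine ⟨fun x => if h : ∃ n, x ∈ bl R S r n then Nat.find h else 0, hr, ?_, ?_, ?_, ?_⟩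
  · have h0 : r ∈ bl R S r 0 := by simp [bl]
    rw [dif_pos ⟨0, h0⟩]
    have := Nat.find_min' (⟨0, h0⟩ : ∃ n, r ∈ bl R S r n) h0
    omega
  · intro x hx h0
    rw [dif_pos (hex x hx)] at h0
    have := Nat.find_spec (hex x hx)
    rw [h0] at this
    simpa [bl] using this
  · intro x hx n hn
    rw [dif_pos (hex x hx)] at hn
    have h1 := Nat.find_spec (hex x hx)
    rw [hn] at h1
    have h2 : x ∉ bl R S r n := Nat.find_min (hex x hx) (by omega)
    rcases mem_union.mp h1 with h3 | h3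
    · exact absurd h3 h2
    · obtain ⟨_, y, hy, hyx⟩ := mem_filter.mp h3
      have hyS := hsub n hy
      refine ⟨y, hyS, ?_, hyx⟩
      rw [dif_pos (hex y hyS)]
      have h4 : Nat.find (hex y hyS) ≤ n := Nat.find_min' _ hy
      by_contra hne
      have h5 : Nat.find (hex y hyS) + 1 ≤ n := by omega
      have h6 := hstep _ y x (Nat.find_spec (hex y hyS)) hx hyx
      exact h2 (hmono _ _ h5 h6)
  · intro x hx y hy hxy
    rw [dif_pos (hex x hx), dif_pos (hex y hy)]
    exact Nat.find_min' _ (hstep _ x y (Nat.find_spec (hex x hx)) hy hxy)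

/-- a vertex dominating `y` from a higher layer dominates a path from `r` to `y` -/
theorem Dist.desc {r : V} {d : V → ℕ} (hd : Dist R S r d) (hL : Lis R S) {w : V} (hw : w ∈ S) :
    ∀ j, ∀ y ∈ S, d y = j → j + 1 ≤ d w → R w y →
      ∃ Z ⊆ S, Rc R Z r y ∧ ∀ z ∈ Z, R w z := by
  intro j
  induction j with
  | zero =>
    intro y hy hdy _ hwy
    have : y = r := hd.zero y hy hdy
    subst this
    exact ⟨{y}, by simpa using hy, Rc.rfl' (by simp), by simpa using hwy⟩
  | succ j ih =>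
    intro y hy hdy hj hwy
    obtain ⟨z, hz, hdz, hzy⟩ := hd.succ y hy j hdy
    have hne : w ≠ z := by rintro rfl; omega
    have hwz : R w z := by
      rcases hL y hy w hw z hz hwy hzy hne with h | h
      · exact h
      · have := hd.le z hz w hw h
        omega
    obtain ⟨Z, hZS, hZ, hwZ⟩ := ih z hz hdz (by omega) hwz
    refine ⟨insert y Z, insert_subset hy hZS, (hZ.mono (subset_insert _ _)).tail hzy
      (mem_insert_self _ _), ?_⟩
    intro x hx
    rcases mem_insert.mp hx with h | h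
    · exact h ▸ hwy
    · exact hwZ x h

/-- the layers are acyclic -/
theorem Dist.layer_ac (hirr : ∀ v, ¬ R v v) {r : V} {d : V → ℕ} (hd : Dist R S r d)
    (hL : Lis R S) (hout : ∀ v ∈ S, Ac R (S.filter (fun b => R v b)))
    (hin : ∀ v ∈ S, Ac R (S.filter (fun b => R b v))) {F : Finset V} (hF : F ⊆ S) {i : ℕ}
    (hi : ∀ x ∈ F, d x = i) : Ac R F := by
  by_contra hac
  obtain ⟨g, hgF, hg, a, ha, b, hb, hab⟩ := exists_circ_of_not_ac hirr hac
  have hgS : g ⊆ S := hgF.trans hF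
  have hstr : ∀ x ∈ g, ∀ y ∈ g, Rc R g x y := by
    intro x hx y hy
    by_cases h : x = y
    · subst h; exact Rc.rfl' hx
    · exact (hg.link hx hy h).rc
  obtain ⟨m, rfl⟩ : ∃ m, i = m + 1 := by
    rcases Nat.eq_zero_or_pos i with h | h
    · exfalso
      apply hab
      rw [hd.zero a (hgS ha) ((hi a (hgF ha)).trans h), hd.zero b (hgS hb) ((hi b (hgF hb)).trans h)]
    · exact ⟨i - 1, by omega⟩
  have claim1 : ∀ w ∈ g, ∀ x ∈ g, ∀ y ∈ S, R w x → d y = m → R y x → ¬ R y w →
      R w r ∧ ¬ R x r := by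
    intro w hw x hx y hy hwx hdy hyx hyw
    have hne : w ≠ y := by
      rintro rfl
      have := hi w (hgF hw)
      omega
    have hwy : R w y := by
      rcases hL x (hgS hx) w (hgS hw) y hy hwx hyx hne with h | h
      · exact h
      · exact absurd h hyw
    obtain ⟨Z, hZS, hZ, hwZ⟩ := hd.desc hL (hgS hw) m y hy hdy (by rw [hi w (hgF hw)]) hwy
    refine ⟨hwZ r hZ.left, fun hxr => ?_⟩
    have hxN : x ∈ S.filter (fun b => R w b) := mem_filter.mpr ⟨hgS hx, hwx⟩
    refine hout w (hgS hw) x r hxr hxN ?_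
    exact (hZ.mono (fun z hz => mem_filter.mpr ⟨hZS hz, hwZ z hz⟩)).tail hyx hxN
  have claim2 : ∀ p ∈ g, ∃ y ∈ S, d y = m ∧ R y p ∧
      ∃ w ∈ g, ∃ x ∈ g, R w x ∧ ¬ R y w ∧ R y x := by
    intro p hp
    obtain ⟨y, hy, hdy, hyp⟩ := hd.succ p (hgS hp) m (hi p (hgF hp))
    refine ⟨y, hy, hdy, hyp, ?_⟩
    have hns := hg.not_sub ha hb hab (hout y hy)
    rw [Finset.subset_iff] at hns
    push Not at hns
    obtain ⟨x0, hx0, hx0'⟩ := hns
    have hyx0 : ¬ R y x0 := fun h => hx0' (mem_filter.mpr ⟨hgS hx0, h⟩)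
    refine Rc.induct (p := fun b => R y b → ∃ w ∈ g, ∃ x ∈ g, R w x ∧ ¬ R y w ∧ R y x) ?_ ?_
      (hstr x0 hx0 p hp) hyp
    · intro _ h; exact absurd h hyx0
    · intro a b hxa ih hab hb hyb
      by_cases hya : R y a
      · exact ih hya
      · exact ⟨a, hxa.right, b, hb, hab, hya, hyb⟩
  have hTne : (g.filter (fun x => R x r)).Nonempty := by
    obtain ⟨y, hy, hdy, _, w, hw, x, hx, hwx, hyw, hyx⟩ := claim2 a ha
    exact ⟨w, mem_filter.mpr ⟨hw, (claim1 w hw x hx y hy hwx hdy hyx hyw).1⟩⟩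
  refine (hin r hd.mem).sink (S := g.filter (fun x => R x r)) ?_ hTne ?_
  · intro x hx
    obtain ⟨hx1, hx2⟩ := mem_filter.mp hx
    exact mem_filter.mpr ⟨hgS hx1, hx2⟩
  · intro p hp
    obtain ⟨hp1, hp2⟩ := mem_filter.mp hp
    obtain ⟨y, hy, hdy, hyp, w, hw, x, hx, hwx, hyw, hyx⟩ := claim2 p hp1
    have hwr := (claim1 w hw x hx y hy hwx hdy hyx hyw).1
    have hne : p ≠ w := by rintro rfl; exact hyw hyp
    refine ⟨w, mem_filter.mpr ⟨hw, hwr⟩, ?_⟩
    rcases hL r hd.mem p (hgS hp1) w (hgS hw) hp2 hwr hne with h | h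
    · exact h
    · exact absurd hp2 (claim1 w hw p hp1 y hy h hdy hyp hyw).2

/-- the base case -/
theorem lis_base [Fintype V] (hirr : ∀ v, ¬ R v v) (h2 : TwoStr R S) (hN : ¬ Neck (Rin R S))
    (hL : Lis R S) : Colr R (Fin 2) S := by
  have h2' : TwoStr (Rin R S) S := h2.rin
  have hirr2 : ∀ v, ¬ Rin R S v v := fun v hv => hirr v hv.1
  have hL2 : Lis (Rin R S) S := by
    intro v hv x hx y hy hxv hyv hne
    rcases hL v hv x hx y hy hxv.1 hyv.1 hne with h | h
    · exact Or.inl ⟨h, hx, hy⟩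
    · exact Or.inr ⟨h, hy, hx⟩
  obtain ⟨r, hr⟩ : S.Nonempty := by
    rw [← Finset.card_pos]; have := h2.1; omega
  have hreach : ∀ x ∈ S, Rc (Rin R S) S r x := by
    intro x hx
    by_cases hxr : x = r
    · subst hxr; exact Rc.rfl' hx
    · obtain ⟨z, hz, hzr, hzx⟩ : ∃ z ∈ S, z ≠ r ∧ z ≠ x := by
        by_contra hcon
        push Not at hcon
        have : S ⊆ {r, x} := by
          intro z hz
          by_cases h : z = r
          · simp [h]
          · simp [hcon z hz h]
        have h4 := (card_le_card this).trans (card_le_two)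
        have := h2.1
        omega
      exact (h2'.2 z hz r (mem_erase.mpr ⟨hzr.symm, hr⟩) x (mem_erase.mpr ⟨hzx.symm, hx⟩)).mono
        (erase_subset _ _)
  obtain ⟨d, hd⟩ := exists_dist hr hreach
  refine ⟨fun v => ⟨d v % 2, Nat.mod_lt _ (by norm_num)⟩, ?_⟩
  intro F hF hm
  apply Ac.of_rin hF
  by_contra hac
  obtain ⟨g, hgF, hg, a, ha, b, hb, hab⟩ := exists_circ_of_not_ac hirr2 hac
  have hle : ∀ x ∈ g, ∀ y ∈ g, d y ≤ d x := by
    intro x hx y hy
    by_cases h : x = y
    · rw [h]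
    · refine Rc.induct (p := fun y => d y ≤ d x) ?_ ?_ (hg.link hx hy h).rc
      · intro _; exact le_refl _
      · intro a b hxa ih hab hb
        have h1 := hd.le a (hF (hgF hxa.right)) b (hF (hgF hb)) hab
        have h2 := hm a (hgF hxa.right) b (hgF hb)
        have h3 : d a % 2 = d b % 2 := by simpa using congrArg Fin.val h2
        omega
  have hgS : g ⊆ S := hgF.trans hF
  have hac2 := hd.layer_ac hirr2 hL2 (fun v hv => out_ac hirr2 h2' hN hv)
    (fun v hv => in_ac hirr2 h2' hN hv) hgS (i := d a)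
    (fun x hx => le_antisymm (hle a ha x hx) (hle x hx a ha))
  exact hg.not_sub ha hb hab hac2 (Subset.refl g)

end layers

end Pool.Agent.Lib.NKT
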