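import Mathlib
import Pool.Agent.Lib.NKT.LocSemi

set_option autoImplicit false

/-! Digraphs in which any two in-neighbours of a vertex are adjacent: reduction (MP_c62493_co). -/

namespace Pool.Agent.Lib.NKT

open Finset Pool.Agent.Lib.NK
open scoped Classical

section locsemi2

variable {V : Type*}

theorem ac_changeR {R R' : V → V → Prop} {F : Finset V} (h : Ac R F)
    (hR : ∀ a ∈ F, ∀ b ∈ F, R' a b → R a b) : Ac R' F := by
  intro u v huv hu hvu
  exact h u v (hR u hu v hvu.left huv) hu (hvu.change (Subset.refl F) hR)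

/-- adding a source to an acyclic set -/
theorem ac_insertSource {R : V → V → Prop} {B : Finset V} {v : V} (h : Ac R (B.erase v))
    (hs : ∀ b ∈ B, ¬ R b v) : Ac R B := by
  have h1 : Ac (Rv R) (B.erase v) := h.rv
  have h2 : Ac (Rv R) B := h1.insertSink (fun b hb => hs b hb)
  exact h2.rv

theorem lis_main [Fintype V] : ∀ (n : ℕ) (R : V → V → Prop) (S : Finset V), S.card ≤ n →
    (∀ v, ¬ R v v) → Lis R S → ¬ Neck (Rin R S) → Colr R (Fin 2) S := by
  intro n
  induction n with
  | zero =>
    intro R S hn hirr _ _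
    exact colr_small (k := 0) hirr (by omega)
  | succ n ih =>
    intro R S hn hirr hL hN
    by_cases h3 : S.card < 3
    · exact colr_small (k := 0) hirr h3
    have ihsub : ∀ T ⊂ S, Colr R (Fin 2) T := by
      intro T hT
      have hc := card_lt_card hT
      exact ih R T (by omega) hirr (hL.mono hT.1)
        (fun h => hN (h.monoR (fun a b hab => ⟨hab.1, hT.1 hab.2.1, hT.1 hab.2.2⟩)))
    by_cases hstr : ∀ u ∈ S, ∀ v ∈ S, Rc R S u v
    swap
    · push Not at hstr
      obtain ⟨u, hu, v, hv, huv⟩ := hstr
      exact colr_split hu hv huv ihsub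
    by_cases h2 : TwoStr R S
    · exact lis_base hirr h2 hN hL
    obtain ⟨z, X, hP, hmin⟩ := exists_piece (by omega) h2
    obtain ⟨hz, hXS, hXne, ⟨y0, hy0, hy0X⟩, hcl⟩ := hP
    set B := (S.erase z) \ X with hB
    set D1 := insert z B with hD1
    set D2 := insert z X with hD2
    have hBS : B ⊆ S := (sdiff_subset).trans (erase_subset _ _)
    have hXS' : X ⊆ S := hXS.trans (erase_subset _ _)
    have hzB : z ∉ B := by simp [hB]
    have hzX : z ∉ X := fun h => (mem_erase.mp (hXS h)).1 rfl
    have hD1S : D1 ⊆ S := insert_subset hz hBS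
    have hD2S : D2 ⊆ S := insert_subset hz hXS'
    obtain ⟨x0, hx0⟩ := hXne
    have hBX : ∀ b ∈ B, b ∉ X := fun b hb => (mem_sdiff.mp hb).2
    have hx0D1 : x0 ∉ D1 := by
      intro h
      rcases mem_insert.mp h with h | h
      · exact hzX (h ▸ hx0)
      · exact hBX _ h hx0
    have hD1ss : D1 ⊂ S := ⟨hD1S, fun h => hx0D1 (h (hXS' hx0))⟩
    have hy0B : y0 ∈ B := mem_sdiff.mpr ⟨hy0, hy0X⟩
    have hD2ss : D2 ⊂ S := by
      refine ⟨hD2S, fun h => ?_⟩
      rcases mem_insert.mp (h (hBS hy0B)) with h | h
      · exact hzB (h ▸ hy0B)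
      · exact hy0X h
    have hXss : X ⊂ S := ⟨hXS', fun h => hy0X (h (hBS hy0B))⟩
    have hnoXB : ∀ x ∈ X, ∀ b ∈ B, ¬ R x b := fun x hx b hb h =>
      hBX b hb (hcl x hx b (mem_sdiff.mp hb).1 h)
    -- a vertex of `B` with an out-neighbour in `X` dominates `X`
    have hdom : ∀ b ∈ B, ∀ a ∈ X, R b a → ∀ a' ∈ X, R b a' := by
      intro b hb a ha hba a' ha'
      by_contra hcon
      have hP' : Piece R S z (X.filter (fun x => ¬ R b x)) := by
        refine ⟨hz, (filter_subset _ _).trans hXS, ⟨a', mem_filter.mpr ⟨ha', hcon⟩⟩,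
          ⟨y0, hy0, fun h => hy0X (mem_filter.mp h).1⟩, ?_⟩
        intro x hx y hy hxy
        obtain ⟨hx1, hx2⟩ := mem_filter.mp hx
        have hyX := hcl x hx1 y hy hxy
        refine mem_filter.mpr ⟨hyX, fun hby => ?_⟩
        have hne : x ≠ b := fun h => hBX b hb (h ▸ hx1)
        rcases hL y (hXS' hyX) x (hXS' hx1) b (hBS hb) hxy hby hne with h | h
        · exact hnoXB x hx1 b hb h
        · exact hx2 h
      have hc := hmin z _ hP'
      have hlt : (X.filter (fun x => ¬ R b x)).card < X.card := by
        apply card_lt_card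
        refine ⟨filter_subset _ _, fun h => ?_⟩
        exact (mem_filter.mp (h ha)).2 hba
      omega
    by_cases htwo : ∃ a1 ∈ X, ∃ a2 ∈ X, a1 ≠ a2 ∧ R a1 z ∧ R a2 z
    · obtain ⟨a1, ha1, a2, ha2, ha12, hr1, hr2⟩ := htwo
      set U : V → Prop := fun a => a ∈ B ∧ ∃ x ∈ X, R a x with hU
      set R1 : V → V → Prop := fun a b => Rin R D1 a b ∨ (b = z ∧ U a) with hR1
      have hUdom : ∀ a, U a → ∀ x ∈ X, R a x := by
        rintro a ⟨haB, x', hx', hax'⟩ x hx
        exact hdom a haB x' hx' hax' x hx
      have hirr1 : ∀ v, ¬ R1 v v := by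
        rintro v (h | ⟨h, h'⟩)
        · exact hirr v h.1
        · exact hzB (h ▸ h'.1)
      have hL1 : Lis R1 D1 := by
        intro v hv x hx y hy hxv hyv hne
        have key : R x y ∨ R y x := by
          by_cases hvz : v = z
          · have hU' : ∀ x ∈ D1, R1 x v → U x := by
              intro x hx hxv
              rcases hxv with h | h
              · have hxz : x ≠ z := by
                  rintro rfl
                  exact hirr x (hvz ▸ h.1)
                have hxB : x ∈ B := by
                  rcases mem_insert.mp hx with h' | h'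
                  · exact absurd h' hxz
                  · exact h'
                have hne' : x ≠ a1 := fun h' => hBX x hxB (h' ▸ ha1)
                rcases hL z hz x (hBS hxB) a1 (hXS' ha1) (hvz ▸ h.1) hr1 hne' with h' | h'
                · exact ⟨hxB, a1, ha1, h'⟩
                · exact absurd h' (hnoXB a1 ha1 x hxB)
              · exact h.2
            exact hL a1 (hXS' ha1) x (hD1S hx) y (hD1S hy) (hUdom x (hU' x hx hxv) a1 ha1)
              (hUdom y (hU' y hy hyv) a1 ha1) hne
          · have h1 : R x v := by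
              rcases hxv with h | h
              · exact h.1
              · exact absurd h.1 hvz
            have h2 : R y v := by
              rcases hyv with h | h
              · exact h.1
              · exact absurd h.1 hvz
            exact hL v (hD1S hv) x (hD1S hx) y (hD1S hy) h1 h2 hne
        rcases key with h | h
        · exact Or.inl (Or.inl ⟨h, hx, hy⟩)
        · exact Or.inr (Or.inl ⟨h, hy, hx⟩)
      have hN1 : ¬ Neck (Rin R1 D1) := by
        intro hneck
        have hpath : ∀ u, U u → ∀ a ∈ X, R a z → Rc (Rin R S) ({u, a, z} : Finset V) u z := by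
          intro u hu a ha haz
          have hua : R u a := hUdom u hu a ha
          have huS : u ∈ S := hBS hu.1
          exact Rc.head (R := Rin R S) (v := a) ⟨hua, huS, hXS' ha⟩ (by simp)
            (Rc.step ⟨haz, hXS' ha, hz⟩ (by simp) (by simp))
        have hXD1 : ∀ a ∈ X, a ∉ D1 := by
          intro a ha h
          rcases mem_insert.mp h with h | h
          · exact hzX (h ▸ ha)
          · exact hBX a h ha
        have hx1 : ∀ a b, Rin R1 D1 a b → Rin R S a b ∨ (b = z ∧ U a) := by
          rintro a b ⟨hab, ha, hb⟩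
          rcases hab with h | h
          · exact Or.inl ⟨h.1, hD1S ha, hD1S hb⟩
          · exact Or.inr h
        have hx2 : ∀ a b, Rin R1 D1 a b → a ∈ D1 ∧ b ∈ D1 := fun a b h => ⟨h.2.1, h.2.2⟩
        rcases nf hx1 hx2 hneck with
          h | ⟨u, huD, hUu, huz, h⟩ | ⟨u1, hu1D, u2, hu2D, hu12, hu1z, hu2z, hU1, hU2, h, _⟩
        · exact hN h
        · refine hN (h {u, a1, z} (hpath u hUu a1 ha1 hr1) ?_)
          intro x hx hxD
          simp only [mem_insert, mem_singleton] at hx
          rcases hx with h' | h' | h'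
          · exact Or.inl h'
          · exact absurd hxD (h' ▸ hXD1 a1 ha1)
          · exact Or.inr h'
        · refine hN (h {u1, a1, z} {u2, a2, z} (hpath u1 hU1 a1 ha1 hr1)
            (hpath u2 hU2 a2 ha2 hr2) ?_ ?_ ?_)
          · intro x hx hxD
            simp only [mem_insert, mem_singleton] at hx
            rcases hx with h' | h' | h'
            · exact Or.inl h'
            · exact absurd hxD (h' ▸ hXD1 a1 ha1)
            · exact Or.inr h'
          · intro x hx hxD
            simp only [mem_insert, mem_singleton] at hx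
            rcases hx with h' | h' | h'
            · exact Or.inl h'
            · exact absurd hxD (h' ▸ hXD1 a2 ha2)
            · exact Or.inr h'
          · intro x hx hx'
            simp only [mem_insert, mem_singleton] at hx hx'
            rcases hx with h1 | h1 | h1
            · rcases hx' with h2 | h2 | h2
              · exact absurd (h1.symm.trans h2) hu12
              · exact absurd (h1 ▸ hu1D) (h2 ▸ hXD1 a2 ha2)
              · exact h2
            · rcases hx' with h2 | h2 | h2
              · exact absurd (h2 ▸ hu2D) (h1 ▸ hXD1 a1 ha1)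
              · exact absurd (h1.symm.trans h2) ha12
              · exact h2
            · exact h1
      have hcD1 := card_lt_card hD1ss
      obtain ⟨c1, hc1⟩ := ih R1 D1 (by omega) hirr1 hL1 hN1
      obtain ⟨c2, hc2⟩ := ihsub D2 hD2ss
      refine combine (k := 0) (R := R) (R1 := R1) (R2 := R) hz hXS hcl hD1 hD2 rfl
        (fun a ha b hb hab => Or.inl ⟨hab, ha, hb⟩) (fun a _ b _ hab => hab) ?_ hc1 hc2
      intro w hw u hu huw hzu
      obtain ⟨huD, huc⟩ := mem_filter.mp hu
      rcases mem_insert.mp huD with h | huB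
      · subst h
        exact huw
      · exfalso
        refine hc1 (D1.filter (fun v => c1 v = c1 z)) (filter_subset _ _) ?_ u z
          (Or.inr ⟨rfl, huB, w, hw, huw⟩) hu
          (hzu.change (Subset.refl _) (fun a ha b hb hab =>
            Or.inl ⟨hab, (mem_filter.mp ha).1, (mem_filter.mp hb).1⟩))
        intro a ha b hb
        rw [(mem_filter.mp ha).2, (mem_filter.mp hb).2]
    · have huniq : ∀ a ∈ X, ∀ a' ∈ X, R a z → R a' z → a = a' := by
        intro a ha a' ha' h h'
        by_contra hne
        exact htwo ⟨a, ha, a', ha', hne, h, h'⟩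
      obtain ⟨c1, hc1⟩ := ihsub D1 hD1ss
      obtain ⟨c, hc⟩ := ihsub X hXss
      obtain ⟨t, ht⟩ : ∃ t : Fin 2, ∀ a ∈ X, R a z → c a ≠ t := by
        by_cases h : ∃ a ∈ X, R a z
        · obtain ⟨a, ha, haz⟩ := h
          refine ⟨c a + 1, fun a' ha' ha'z => ?_⟩
          rw [huniq a' ha' a ha ha'z haz]
          have : ∀ t : Fin 2, t ≠ t + 1 := by decide
          exact this _
        · push Not at h
          exact ⟨0, fun a ha haz => absurd haz (h a ha)⟩
      refine combine (k := 0) (R := R) (R1 := R)
        (R2 := fun a b => R a b ∨ (a = z ∧ b ∈ X)) (c1 := c1)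
        (c2 := fun v => if v = z then t else c v) hz hXS hcl hD1 hD2 rfl
        (fun a _ b _ hab => hab) (fun a _ b _ hab => Or.inl hab) ?_ hc1 ?_
      · intro w hw u _ _ _
        exact Or.inr ⟨rfl, hw⟩
      · intro F hF hm
        have hcX : Ac (fun a b => R a b ∨ (a = z ∧ b ∈ X)) (F.erase z) := by
          have hFX : F.erase z ⊆ X := by
            intro x hx
            obtain ⟨hx1, hx2⟩ := mem_erase.mp hx
            rcases mem_insert.mp (hF hx2) with h | h
            · exact absurd h hx1
            · exact h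
          have h1 : Ac R (F.erase z) := by
            refine hc _ hFX ?_
            intro u hu v hv
            have := hm u (mem_erase.mp hu).2 v (mem_erase.mp hv).2
            simpa only [if_neg (mem_erase.mp hu).1, if_neg (mem_erase.mp hv).1] using this
          refine ac_changeR h1 ?_
          rintro a ha b hb (h | ⟨h, _⟩)
          · exact h
          · exact absurd h (mem_erase.mp ha).1
        by_cases hzF : z ∈ F
        · refine ac_insertSource hcX ?_
          rintro b hb (h | ⟨_, h⟩)
          · have hbz : b ≠ z := by rintro rfl; exact hirr b h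
            have hbX : b ∈ X := by
              rcases mem_insert.mp (hF hb) with h' | h'
              · exact absurd h' hbz
              · exact h'
            have := hm b hb z hzF
            simp only [if_neg hbz, if_true] at this
            exact ht b hbX h this
          · exact hzX h
        · rwa [erase_eq_of_notMem hzF] at hcX

/-- `y` has all the neighbours of `x` -/
def Dom (R : V → V → Prop) (S : Finset V) (x y : V) : Prop :=
  ∀ u ∈ S, (R x u → R y u) ∧ (R u x → R u y)

/-- any two in-neighbours of a vertex are adjacent or comparable, inside `S` -/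
def Cis (R : V → V → Prop) (S : Finset V) : Prop :=
  ∀ v ∈ S, ∀ x ∈ S, ∀ y ∈ S, R x v → R y v → x ≠ y →
    R x y ∨ R y x ∨ Dom R S x y ∨ Dom R S y x

theorem Cis.mono {R : V → V → Prop} {S T : Finset V} (h : Cis R S) (hT : T ⊆ S) : Cis R T := by
  intro v hv x hx y hy hxv hyv hne
  rcases h v (hT hv) x (hT hx) y (hT hy) hxv hyv hne with h | h | h | h
  · exact Or.inl h
  · exact Or.inr (Or.inl h)
  · exact Or.inr (Or.inr (Or.inl (fun u hu => h u (hT hu))))
  · exact Or.inr (Or.inr (Or.inr (fun u hu => h u (hT hu))))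

/-- a vertex dominated by a non-adjacent one can be coloured last -/
theorem colr_dom {R : V → V → Prop} {α : Type} {S : Finset V} (hirr : ∀ v, ¬ R v v) {x y : V}
    (hx : x ∈ S) (hy : y ∈ S) (hne : x ≠ y) (hxy : ¬ R x y) (hyx : ¬ R y x) (hD : Dom R S x y)
    (h : Colr R α (S.erase x)) : Colr R α S := by
  obtain ⟨c, hc⟩ := h
  refine ⟨fun v => if v = x then c y else c v, ?_⟩
  intro F hF hm
  by_contra hac
  obtain ⟨g, hgF, hg, a, ha, b, hb, hab⟩ := exists_circ_of_not_ac hirr hac
  have hgS : g ⊆ S := hgF.trans hF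
  have hout : ∀ u ∈ g, ∃ v ∈ g, R u v := by
    intro u hu
    obtain ⟨v, hv, huv⟩ : ∃ v ∈ g, u ≠ v := by
      by_cases h : u = a
      · exact ⟨b, hb, fun h' => hab (h.symm.trans h')⟩
      · exact ⟨a, ha, h⟩
    rcases (hg.link hu hv huv).rc.cases_head with h | ⟨w, hw, h⟩
    · exact absurd h huv
    · exact ⟨w, h.left, hw⟩
  by_cases hxg : x ∈ g
  · have hsub : insert y (g.erase x) ⊆ S.erase x := by
      intro u hu
      rcases mem_insert.mp hu with h | h
      · exact mem_erase.mpr ⟨h ▸ hne.symm, h ▸ hy⟩
      · exact mem_erase.mpr ⟨(mem_erase.mp h).1, hgS (mem_erase.mp h).2⟩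
    have hcol : ∀ u ∈ insert y (g.erase x), c u = c y := by
      intro u hu
      rcases mem_insert.mp hu with h | h
      · rw [h]
      · obtain ⟨h1, h2⟩ := mem_erase.mp h
        have := hm u (hgF h2) x (hgF hxg)
        simpa only [if_neg h1, if_true] using this
    refine (hc _ hsub (fun u hu v hv => (hcol u hu).trans (hcol v hv).symm)).sink
      (Subset.refl _) ⟨y, mem_insert_self _ _⟩ ?_
    intro u hu
    rcases mem_insert.mp hu with h | h
    · obtain ⟨w, hw, hxw⟩ := hout x hxg
      have hwx : w ≠ x := by rintro rfl; exact hirr _ hxw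
      exact ⟨w, mem_insert_of_mem (mem_erase.mpr ⟨hwx, hw⟩), h ▸ (hD w (hgS hw)).1 hxw⟩
    · obtain ⟨h1, h2⟩ := mem_erase.mp h
      obtain ⟨w, hw, huw⟩ := hout u h2
      by_cases hwx : w = x
      · exact ⟨y, mem_insert_self _ _, (hD u (hgS h2)).2 (hwx ▸ huw)⟩
      · exact ⟨w, mem_insert_of_mem (mem_erase.mpr ⟨hwx, hw⟩), huw⟩
  · have hg' : ∀ u ∈ g, u ≠ x := fun u hu h => hxg (h ▸ hu)
    refine (hc g (fun u hu => mem_erase.mpr ⟨hg' u hu, hgS hu⟩) ?_).sink (Subset.refl _) ⟨a, ha⟩ hout
    intro u hu v hv
    have := hm u (hgF hu) v (hgF hv)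
    simpa only [if_neg (hg' u hu), if_neg (hg' v hv)] using this

theorem cis_main [Fintype V] : ∀ (n : ℕ) (R : V → V → Prop) (S : Finset V), S.card ≤ n →
    (∀ v, ¬ R v v) → Cis R S → ¬ Neck (Rin R S) → Colr R (Fin 2) S := by
  intro n
  induction n with
  | zero =>
    intro R S hn hirr _ _
    exact colr_small (k := 0) hirr (by omega)
  | succ n ih =>
    intro R S hn hirr hC hN
    by_cases hL : Lis R S
    · exact lis_main S.card R S (le_refl _) hirr hL hN
    unfold Lis at hL
    push Not at hL
    obtain ⟨v, hv, x, hx, y, hy, hxv, hyv, hne, hxy, hyx⟩ := hL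
    have key : ∀ x ∈ S, ∀ y ∈ S, x ≠ y → ¬ R x y → ¬ R y x → Dom R S x y → Colr R (Fin 2) S := by
      intro x hx y hy hne hxy hyx hD
      refine colr_dom hirr hx hy hne hxy hyx hD (ih R (S.erase x) ?_ hirr
        (hC.mono (erase_subset _ _)) ?_)
      · have := card_erase_lt_of_mem hx
        omega
      · intro h
        exact hN (h.monoR (fun a b hab => ⟨hab.1, erase_subset _ _ hab.2.1,
          erase_subset _ _ hab.2.2⟩))
    rcases hC v hv x hx y hy hxv hyv hne with h | h | h | h
    · exact absurd h hxy
    · exact absurd h hyx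
    · exact key x hx y hy hne hxy hyx h
    · exact key y hy x hx hne.symm hyx hxy h

/-- the theorem for relations, in-neighbours -/
theorem cis_colr [Fintype V] {R : V → V → Prop} (hirr : ∀ v, ¬ R v v) (hC : Cis R univ)
    (hN : ¬ Neck R) : Colr R (Fin 2) univ :=
  cis_main (univ : Finset V).card R univ (le_refl _) hirr hC
    (fun h => hN (h.monoR (fun a b hab => hab.1)))

/-- the same for out-neighbours -/
theorem cos_colr [Fintype V] {R : V → V → Prop} (hirr : ∀ v, ¬ R v v) (hC : Cis (Rv R) univ)
    (hN : ¬ Neck R) : Colr R (Fin 2) univ := by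
  obtain ⟨c, hc⟩ := cis_colr (R := Rv R) hirr hC (fun h => hN h.rv)
  exact ⟨c, fun F hF hm => (hc F hF hm).rv⟩

theorem colr_false [Fintype V] {R : V → V → Prop} (h : Colr R (Fin 2) univ)
    (hcol : ∀ c : V → Bool, ∃ F : Finset V, F.Nonempty ∧ (∀ u ∈ F, ∀ v ∈ F, c u = c v) ∧
      (∀ u ∈ F, ∃ v ∈ F, R u v)) : False := by
  refine h.false (fun c => ?_)
  obtain ⟨F, hne, hm, hs⟩ := hcol (fun v => decide (c v = 0))
  refine ⟨F, subset_univ F, hne, ?_, hs⟩
  intro u hu v hv
  have h1 := hm u hu v hv
  simp only [decide_eq_decide] at h1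
  have h2 : ∀ s t : Fin 2, (s = 0 ↔ t = 0) → s = t := by decide
  exact h2 _ _ h1

end locsemi2

end Pool.Agent.Lib.NKT
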