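import Mathlib
import Pool.Agent.Lib.NKT.LocSemi2

set_option autoImplicit false

/-! Quasi-transitive digraphs (MP_c62493_co). -/

namespace Pool.Agent.Lib.NKT

open Finset Pool.Agent.Lib.NK
open scoped Classical

section quasi

variable {V : Type*} {R : V → V → Prop} {S : Finset V}

/-- the ends of a directed path of length two are adjacent, inside `S` -/
def Qt (R : V → V → Prop) (S : Finset V) : Prop :=
  ∀ x ∈ S, ∀ v ∈ S, ∀ y ∈ S, R x v → R v y → x ≠ y → R x y ∨ R y x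

theorem Qt.mono {T : Finset V} (h : Qt R S) (hT : T ⊆ S) : Qt R T :=
  fun x hx v hv y hy => h x (hT hx) v (hT hv) y (hT hy)

theorem Dist.back {r : V} {d : V → ℕ} (hd : Dist R S r d) (hQ : Qt R S) {b : V} (hb : b ∈ S)
    {k : ℕ} (hk : d b = k + 2) :
    ∃ y ∈ S, ∃ z ∈ S, d y = k + 1 ∧ d z = k ∧ R y b ∧ R z y ∧ R b z := by
  obtain ⟨y, hy, hdy, hyb⟩ := hd.succ b hb (k + 1) hk
  obtain ⟨z, hz, hdz, hzy⟩ := hd.succ y hy k hdy
  refine ⟨y, hy, z, hz, hdy, hdz, hyb, hzy, ?_⟩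
  have hne : z ≠ b := by rintro rfl; omega
  rcases hQ z hz y hy b hb hzy hyb hne with h | h
  · have := hd.le z hz b hb h
    omega
  · exact h

theorem Dist.far {r : V} {d : V → ℕ} (hd : Dist R S r d) (hQ : Qt R S) :
    ∀ n, ∀ b ∈ S, d b = n → (n = 2 ∨ 4 ≤ n) → R b r := by
  intro n
  induction n using Nat.strong_induction_on with
  | _ n ih =>
    intro b hb hdb hn
    have hnr : ∀ z ∈ S, 2 ≤ d z → ¬ R r z := by
      intro z hz h2 h
      have := hd.le r hd.mem z hz h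
      have := hd.root
      omega
    have hner : ∀ z ∈ S, 2 ≤ d z → z ≠ r := by
      rintro z hz h2 rfl
      have := hd.root
      omega
    obtain ⟨k, rfl⟩ : ∃ k, n = k + 2 := ⟨n - 2, by omega⟩
    obtain ⟨y, hy, z, hz, hdy, hdz, hyb, hzy, hbz⟩ := hd.back hQ hb hdb
    rcases Nat.eq_zero_or_pos k with h0 | h0
    · subst h0
      rw [hd.zero z hz hdz] at hbz
      exact hbz
    have hk : 2 ≤ k := by omega
    have hzr : R z r := by
      by_cases h3 : k = 3
      · have hyr : R y r := ih (k + 1) (by omega) y hy hdy (by omega)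
        rcases hQ z hz y hy r hd.mem hzy hyr (hner z hz (by omega)) with h | h
        · exact h
        · exact absurd h (hnr z hz (by omega))
      · exact ih k (by omega) z hz hdz (by omega)
    rcases hQ b hb z hz r hd.mem hbz hzr (hner b hb (by omega)) with h | h
    · exact h
    · exact absurd h (hnr b hb (by omega))

/-- two non-adjacent vertices of a strong quasi-transitive digraph -/
theorem Dist.four {r : V} {d : V → ℕ} (hd : Dist R S r d) (hQ : Qt R S) {a : V} (ha : a ∈ S)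
    (hne : a ≠ r) (h1 : ¬ R r a) (h2 : ¬ R a r) :
    ∃ u ∈ S, ∃ v ∈ S, R r u ∧ R u v ∧ R v a ∧ R a u ∧ R v r := by
  have h3 : d a = 1 + 2 := by
    by_contra hcon
    rcases Nat.lt_or_ge (d a) 2 with h | h
    · rcases Nat.eq_zero_or_pos (d a) with h0 | h0
      · exact hne (hd.zero a ha h0)
      · obtain ⟨y, hy, hdy, hya⟩ := hd.succ a ha 0 (by omega)
        rw [hd.zero y hy hdy] at hya
        exact h1 hya
    · exact h2 (hd.far hQ (d a) a ha rfl (by omega))
  obtain ⟨v, hv, u, hu, hdv, hdu, hva, huv, hau⟩ := hd.back hQ ha h3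
  have hvr := hd.far hQ 2 v hv (by omega) (Or.inl rfl)
  obtain ⟨y, hy, hdy, hyu⟩ := hd.succ u hu 0 (by omega)
  rw [hd.zero y hy hdy] at hyu
  exact ⟨u, hu, v, hv, hyu, huv, hva, hau, hvr⟩

theorem qt_four (hQ : Qt R S) (hs : ∀ x ∈ S, ∀ y ∈ S, Rc R S x y) {x a : V} (hx : x ∈ S)
    (ha : a ∈ S) (hne : a ≠ x) (h1 : ¬ R x a) (h2 : ¬ R a x) :
    ∃ u ∈ S, ∃ v ∈ S, R x u ∧ R u v ∧ R v a ∧ R a u ∧ R v x := by
  obtain ⟨d, hd⟩ := exists_dist hx (fun y hy => hs x hx y hy)
  exact hd.four hQ ha hne h1 h2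

/-- all pairs between `A` and the rest of `T` are adjacent -/
def Spl (R : V → V → Prop) (T A : Finset V) : Prop :=
  A ⊆ T ∧ A.Nonempty ∧ (T \ A).Nonempty ∧ ∀ a ∈ A, ∀ b ∈ T \ A, R a b ∨ R b a

theorem spl_of_not_strong (hirr : ∀ v, ¬ R v v) (hQ : Qt R S)
    (hs : ∀ x ∈ S, ∀ y ∈ S, Rc R S x y) {x a : V} (hx : x ∈ S)
    (ha : a ∈ S) (hne : a ≠ x) (h1 : ¬ R x a) (h2 : ¬ R a x)
    (hns : ¬ ∀ p ∈ S.erase x, ∀ q ∈ S.erase x, Rc R (S.erase x) p q) :
    ∃ A, Spl R (S.erase x) A := by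
  obtain ⟨u, hu, v, hv, hxu, huv, hva, hau, hvx⟩ := qt_four hQ hs hx ha hne h1 h2
  set T := S.erase x with hT
  have hTS : T ⊆ S := erase_subset _ _
  have haT : a ∈ T := mem_erase.mpr ⟨hne, ha⟩
  have huT : u ∈ T := mem_erase.mpr ⟨fun h => hirr x (h ▸ hxu), hu⟩
  have hvT : v ∈ T := mem_erase.mpr ⟨fun h => hirr x (h ▸ hvx), hv⟩
  set K := T.filter (fun b => Rc R T a b ∧ Rc R T b a) with hK
  have mK : ∀ b, b ∈ K ↔ Rc R T a b ∧ Rc R T b a := by
    intro b
    rw [hK, mem_filter]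
    exact ⟨fun h => h.2, fun h => ⟨h.1.right, h⟩⟩
  have hua : Rc R T u a := Rc.head huv huT (Rc.step hva hvT haT)
  have hav : Rc R T a v := (Rc.step hau haT huT).tail huv hvT
  have haK : a ∈ K := (mK a).2 ⟨Rc.rfl' haT, Rc.rfl' haT⟩
  have huK : u ∈ K := (mK u).2 ⟨Rc.step hau haT huT, hua⟩
  have hvK : v ∈ K := (mK v).2 ⟨hav, Rc.step hva hvT haT⟩
  have hC1 : ∀ b ∈ T, b ∉ K → ∀ k0 ∈ K, R k0 b → ∀ k ∈ K, R k b := by
    intro b hb hbK k0 hk0 hk0b k hk
    have hr : Rc (Rv R) T k0 k := (((mK k).1 hk).2.trans ((mK k0).1 hk0).1).rv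
    have key : Rc R T a k → R k b := by
      refine Rc.induct (p := fun w => Rc R T a w → R w b) (fun _ _ => hk0b) ?_ hr
      intro c d hc ih hcd hdT had
      have hcd' : R d c := hcd
      have hck0 : Rc R T c k0 := hc.rv
      have hac : Rc R T a c := had.tail hcd' hc.right
      have hcb := ih hac
      have hab : Rc R T a b := hac.tail hcb hb
      have hca : Rc R T c a := hck0.trans ((mK k0).1 hk0).2
      have hdb : d ≠ b := by
        rintro rfl
        exact hbK ((mK d).2 ⟨hab, Rc.head hcd' hb hca⟩)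
      rcases hQ d (hTS hdT) c (hTS hc.right) b (hTS hb) hcd' hcb hdb with h | h
      · exact h
      · exact absurd ((mK b).2 ⟨hab, Rc.head h hb (Rc.head hcd' hdT hca)⟩) hbK
    exact key ((mK k).1 hk).1
  have hC2 : ∀ b ∈ T, b ∉ K → ∀ k0 ∈ K, R b k0 → ∀ k ∈ K, R b k := by
    intro b hb hbK k0 hk0 hbk0 k hk
    have hr : Rc R T k0 k := ((mK k0).1 hk0).2.trans ((mK k).1 hk).1
    have key : Rc R T k a → R b k := by
      refine Rc.induct (p := fun w => Rc R T w a → R b w) (fun _ _ => hbk0) ?_ hr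
      intro c d hc ih hcd hdT hda
      have hca : Rc R T c a := Rc.head hcd hc.right hda
      have hbc := ih hca
      have hba : Rc R T b a := Rc.head hbc hb hca
      have hac : Rc R T a c := ((mK k0).1 hk0).1.trans hc
      have hdb : b ≠ d := by
        rintro rfl
        exact hbK ((mK b).2 ⟨hac.tail hcd hb, hba⟩)
      rcases hQ b (hTS hb) c (hTS hc.right) d (hTS hdT) hbc hcd hdb with h | h
      · exact h
      · exact absurd ((mK b).2 ⟨(hac.tail hcd hdT).tail h hb, hba⟩) hbK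
    exact key ((mK k).1 hk).2
  have hKT : K ⊆ T := filter_subset _ _
  refine ⟨K, hKT, ⟨a, haK⟩, ?_, ?_⟩
  · by_contra hcon
    rw [not_nonempty_iff_eq_empty, sdiff_eq_empty_iff_subset] at hcon
    apply hns
    intro p hp q hq
    exact ((mK p).1 (hcon hp)).2.trans ((mK q).1 (hcon hq)).1
  · intro k hk b hb
    obtain ⟨hbT, hbK⟩ := mem_sdiff.mp hb
    have hbS := hTS hbT
    have hbx : b ≠ x := (mem_erase.mp hbT).1
    by_cases c1 : R x b
    · have hvb : v ≠ b := fun h => hbK (h ▸ hvK)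
      rcases hQ v hv x hx b hbS hvx c1 hvb with h | h
      · exact Or.inl (hC1 b hbT hbK v hvK h k hk)
      · exact Or.inr (hC2 b hbT hbK v hvK h k hk)
    by_cases c2 : R b x
    · have hbu : b ≠ u := fun h => hbK (h ▸ huK)
      rcases hQ b hbS x hx u hu c2 hxu hbu with h | h
      · exact Or.inr (hC2 b hbT hbK u huK h k hk)
      · exact Or.inl (hC1 b hbT hbK u huK h k hk)
    obtain ⟨u', hu', v', hv', hxu', huv', hvb', hbu', hvx'⟩ := qt_four hQ hs hx hbS hbx c1 c2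
    have huT' : u' ∈ T := mem_erase.mpr ⟨fun h => hirr x (h ▸ hxu'), hu'⟩
    have hvT' : v' ∈ T := mem_erase.mpr ⟨fun h => hirr x (h ▸ hvx'), hv'⟩
    have huK' : u' ∉ K := by
      intro h
      obtain ⟨g1, g2⟩ := (mK u').1 h
      exact hbK ((mK b).2 ⟨(g1.tail huv' hvT').tail hvb' hbT, Rc.head hbu' hbT g2⟩)
    have hvK' : v' ∉ K := by
      intro h
      obtain ⟨g1, g2⟩ := (mK v').1 h
      exact hbK ((mK b).2 ⟨g1.tail hvb' hbT, Rc.head hbu' hbT (Rc.head huv' huT' g2)⟩)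
    have hkb : k ≠ b := fun h => hbK (h ▸ hk)
    have hkS : k ∈ S := hTS (hKT hk)
    have hvu' : v ≠ u' := fun h => huK' (h ▸ hvK)
    rcases hQ v hv x hx u' hu' hvx hxu' hvu' with h | h
    · have hku := hC1 u' huT' huK' v hvK h k hk
      have hkv' : k ≠ v' := fun h => hvK' (h ▸ hk)
      rcases hQ k hkS u' hu' v' hv' hku huv' hkv' with h' | h'
      · exact hQ k hkS v' hv' b hbS h' hvb' hkb
      · exfalso
        obtain ⟨g1, g2⟩ := (mK k).1 hk
        exact hvK' ((mK v').2 ⟨(g1.tail hku huT').tail huv' hvT', Rc.head h' hvT' g2⟩)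
    · have huk := hC2 u' huT' huK' v hvK h k hk
      exact (hQ b hbS u' hu' k hkS hbu' huk hkb.symm).symm

theorem Spl.symm {T A : Finset V} (h : Spl R T A) : Spl R T (T \ A) := by
  obtain ⟨h1, h2, h3, h4⟩ := h
  have e : T \ (T \ A) = A := by
    rw [sdiff_sdiff_right_self]
    exact inf_eq_right.mpr h1
  refine ⟨sdiff_subset, h3, by rw [e]; exact h2, ?_⟩
  intro a ha b hb
  rw [e] at hb
  exact (h4 b hb a ha).symm

theorem spl_of_all (hne : S.Nonempty) (h : ∀ x ∈ S, ∃ A, Spl R (S.erase x) A) :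
    ∃ A, Spl R S A := by
  have hex : ∃ n, ∃ x ∈ S, ∃ A, Spl R (S.erase x) A ∧ A.card = n := by
    obtain ⟨x, hx⟩ := hne
    obtain ⟨A, hA⟩ := h x hx
    exact ⟨_, x, hx, A, hA, rfl⟩
  obtain ⟨x, hx, A, hA, hcard⟩ := Nat.find_spec hex
  have hmin : ∀ x' ∈ S, ∀ A', Spl R (S.erase x') A' → A.card ≤ A'.card := by
    intro x' hx' A' hA'
    rw [hcard]
    exact Nat.find_min' hex ⟨x', hx', A', hA', rfl⟩
  obtain ⟨hA1, ⟨a, ha⟩, hA3, hA4⟩ := hA
  have haS : a ∈ S := (mem_erase.mp (hA1 ha)).2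
  have hax : a ≠ x := (mem_erase.mp (hA1 ha)).1
  have hxa : x ∈ S.erase a := mem_erase.mpr ⟨hax.symm, hx⟩
  obtain ⟨A', hA', hxA'⟩ : ∃ A', Spl R (S.erase a) A' ∧ x ∉ A' := by
    obtain ⟨A', hA'⟩ := h a haS
    by_cases hxA : x ∈ A'
    · exact ⟨_, hA'.symm, fun h => (mem_sdiff.mp h).2 hxA⟩
    · exact ⟨A', hA', hxA⟩
  obtain ⟨hB1, hB2, hB3, hB4⟩ := hA'
  have haA' : a ∉ A' := fun h => (mem_erase.mp (hB1 h)).1 rfl
  have hcross : ∀ p ∈ A', p ∉ A → p ∈ S.erase x \ A := by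
    intro p hp hpA
    refine mem_sdiff.mpr ⟨mem_erase.mpr ⟨?_, (mem_erase.mp (hB1 hp)).2⟩, hpA⟩
    rintro rfl
    exact hxA' hp
  by_cases hint : (A' ∩ A).Nonempty
  · exfalso
    have hs : Spl R (S.erase a) (A' ∩ A) := by
      refine ⟨inter_subset_left.trans hB1, hint, ⟨x, mem_sdiff.mpr ⟨hxa, fun h =>
        hxA' (mem_inter.mp h).1⟩⟩, ?_⟩
      intro p hp q hq
      obtain ⟨hp1, hp2⟩ := mem_inter.mp hp
      obtain ⟨hq1, hq2⟩ := mem_sdiff.mp hq
      by_cases hqA : q ∈ A'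
      · have hq3 : q ∉ A := fun h => hq2 (mem_inter.mpr ⟨hqA, h⟩)
        exact hA4 p hp2 q (hcross q hqA hq3)
      · exact hB4 p hp1 q (mem_sdiff.mpr ⟨hq1, hqA⟩)
    have h1 := hmin a haS _ hs
    have h2 : (A' ∩ A).card < A.card := by
      apply card_lt_card
      refine ⟨inter_subset_right, fun h => ?_⟩
      exact haA' (mem_inter.mp (h ha)).1
    omega
  · rw [not_nonempty_iff_eq_empty] at hint
    have hdis : ∀ p ∈ A', p ∉ A := by
      intro p hp hpA
      have : p ∈ A' ∩ A := mem_inter.mpr ⟨hp, hpA⟩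
      rw [hint] at this
      exact absurd this (notMem_empty _)
    refine ⟨A', hB1.trans (erase_subset _ _), hB2, ⟨x, mem_sdiff.mpr ⟨hx, hxA'⟩⟩, ?_⟩
    intro p hp q hq
    obtain ⟨hq1, hq2⟩ := mem_sdiff.mp hq
    by_cases hqa : q = a
    · subst hqa
      exact (hA4 q ha p (hcross p hp (hdis p hp))).symm
    · exact hB4 p hp q (mem_sdiff.mpr ⟨mem_erase.mpr ⟨hqa, hq1⟩, hq2⟩)

/-- the complement of a strong quasi-transitive digraph is disconnected -/
theorem qt_spl (hirr : ∀ v, ¬ R v v) : ∀ (n : ℕ) (S : Finset V), S.card ≤ n → 2 ≤ S.card →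
    Qt R S → (∀ x ∈ S, ∀ y ∈ S, Rc R S x y) → ∃ A, Spl R S A := by
  intro n
  induction n with
  | zero => intro S h1 h2; omega
  | succ n ih =>
    intro S h1 h2 hQ hs
    by_cases huniv : ∃ x ∈ S, ∀ y ∈ S, y ≠ x → R x y ∨ R y x
    · obtain ⟨x, hx, hxy⟩ := huniv
      refine ⟨{x}, by simpa using hx, ⟨x, by simp⟩, ?_, ?_⟩
      · rw [← card_pos, card_sdiff_of_subset (by simpa using hx), card_singleton]
        omega
      · intro a ha b hb
        rw [mem_singleton] at ha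
        subst ha
        obtain ⟨hb1, hb2⟩ := mem_sdiff.mp hb
        exact hxy b hb1 (fun h => hb2 (mem_singleton.mpr h))
    · push Not at huniv
      refine spl_of_all ?_ ?_
      · rw [← card_pos]; omega
      · intro x hx
        obtain ⟨a, ha, hne, hxa, hax⟩ := huniv x hx
        by_cases hst : ∀ p ∈ S.erase x, ∀ q ∈ S.erase x, Rc R (S.erase x) p q
        · obtain ⟨u, hu, v, hv, hxu, huv, hva, hau, hvx⟩ := qt_four hQ hs hx ha hne hxa hax
          have hau' : a ≠ u := fun h => hirr a (h ▸ hau)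
          have hsub : ({a, u} : Finset V) ⊆ S.erase x := by
            intro w hw
            rcases mem_insert.mp hw with h | h
            · exact h ▸ mem_erase.mpr ⟨hne, ha⟩
            · rw [mem_singleton] at h
              exact h ▸ mem_erase.mpr ⟨fun h' => hirr x (h' ▸ hxu), hu⟩
          have hc := card_le_card hsub
          rw [card_pair hau'] at hc
          refine ih (S.erase x) ?_ hc (hQ.mono (erase_subset _ _)) hst
          rw [card_erase_of_mem hx]
          omega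
        · exact spl_of_not_strong hirr hQ hs hx ha hne hxa hax hst

end quasi

end Pool.Agent.Lib.NKT
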