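import Mathlib
import Pool.Agent.Lib.NKT.Quasi

set_option autoImplicit false

/-! Quasi-transitive digraphs: the colouring (MP_c62493_co). -/

namespace Pool.Agent.Lib.NKT

open Finset Pool.Agent.Lib.NK
open scoped Classical

section quasi2

variable {V : Type*} {R : V → V → Prop} {S Q : Finset V}

theorem not_ac_digon {p q : V} (h1 : R p q) (h2 : R q p) : ¬ Ac R ({p, q} : Finset V) :=
  fun h => h p q h1 (by simp) (Rc.step h2 (by simp) (by simp))

theorem not_ac_tri {p q s : V} (h1 : R p q) (h2 : R q s) (h3 : R s p) :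
    ¬ Ac R ({p, q, s} : Finset V) :=
  fun h => h p q h1 (by simp) (Rc.head h2 (by simp) (Rc.step h3 (by simp) (by simp)))

/-- a short cycle in a quasi-transitive digraph -/
theorem qt_small (hirr : ∀ v, ¬ R v v) (hQ : Qt R Q) (hac : ¬ Ac R Q) :
    ∃ T ⊆ Q, ¬ Ac R T ∧ ∀ x ∈ T, ∀ y ∈ T, x ≠ y → R x y ∨ R y x := by
  have dig : ∀ p ∈ Q, ∀ q ∈ Q, R p q → R q p →
      ∃ T ⊆ Q, ¬ Ac R T ∧ ∀ x ∈ T, ∀ y ∈ T, x ≠ y → R x y ∨ R y x := by
    intro p hp q hq h1 h2
    refine ⟨{p, q}, ?_, not_ac_digon h1 h2, ?_⟩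
    · intro w hw
      simp only [mem_insert, mem_singleton] at hw
      rcases hw with h | h
      · exact h ▸ hp
      · exact h ▸ hq
    · intro x hx y hy hne
      simp only [mem_insert, mem_singleton] at hx hy
      rcases hx with h | h <;> rcases hy with h' | h'
      · exact absurd (h.trans h'.symm) hne
      · rw [h, h']; exact Or.inl h1
      · rw [h, h']; exact Or.inl h2
      · exact absurd (h.trans h'.symm) hne
  have tri : ∀ p ∈ Q, ∀ q ∈ Q, ∀ s ∈ Q, R p q → R q s → R s p →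
      ∃ T ⊆ Q, ¬ Ac R T ∧ ∀ x ∈ T, ∀ y ∈ T, x ≠ y → R x y ∨ R y x := by
    intro p hp q hq s hs h1 h2 h3
    refine ⟨{p, q, s}, ?_, not_ac_tri h1 h2 h3, ?_⟩
    · intro w hw
      simp only [mem_insert, mem_singleton] at hw
      rcases hw with h | h | h
      · exact h ▸ hp
      · exact h ▸ hq
      · exact h ▸ hs
    · intro x hx y hy hne
      simp only [mem_insert, mem_singleton] at hx hy
      rcases hx with h | h | h <;> rcases hy with h' | h' | h'
      · exact absurd (h.trans h'.symm) hne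
      · rw [h, h']; exact Or.inl h1
      · rw [h, h']; exact Or.inr h3
      · rw [h, h']; exact Or.inr h1
      · exact absurd (h.trans h'.symm) hne
      · rw [h, h']; exact Or.inl h2
      · rw [h, h']; exact Or.inl h3
      · rw [h, h']; exact Or.inr h2
      · exact absurd (h.trans h'.symm) hne
  unfold Ac at hac
  push Not at hac
  obtain ⟨u, v, huv, hu, hvu⟩ := hac
  have hv : v ∈ Q := hvu.left
  have key : u = v ∨ R v u ∨
      ∃ T ⊆ Q, ¬ Ac R T ∧ ∀ x ∈ T, ∀ y ∈ T, x ≠ y → R x y ∨ R y x := by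
    refine Rc.induct (p := fun b => b = v ∨ R v b ∨
      ∃ T ⊆ Q, ¬ Ac R T ∧ ∀ x ∈ T, ∀ y ∈ T, x ≠ y → R x y ∨ R y x) (fun _ => Or.inl rfl) ?_ hvu
    intro a b hva ih hab hb
    rcases ih with h | h | h
    · exact Or.inr (Or.inl (h ▸ hab))
    · by_cases hbv : v = b
      · subst hbv
        exact Or.inr (Or.inr (dig v hv a hva.right h hab))
      · rcases hQ v hv a hva.right b hb h hab hbv with h' | h'
        · exact Or.inr (Or.inl h')
        · exact Or.inr (Or.inr (tri v hv a hva.right b hb h hab h'))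
    · exact Or.inr (Or.inr h)
  rcases key with h | h | h
  · exact absurd (h ▸ huv) (hirr v)
  · exact dig u hu v hv huv h
  · exact h

/-- colouring with a module -/
theorem colr_module (hirr : ∀ v, ¬ R v v) {x : V}
    (hmod : ∀ z ∈ S, z ∉ Q → ∀ q ∈ Q, (R z q ↔ R z x) ∧ (R q z ↔ R x z)) {T0 : Finset V}
    (hT0 : T0 ⊆ Q) {c' cQ : V → Fin 2}
    (h1 : ∀ F ⊆ T0 ∪ (S \ Q), (∀ u ∈ F, ∀ v ∈ F, c' u = c' v) → Ac R F)
    (h2 : ∀ F ⊆ Q, (∀ u ∈ F, ∀ v ∈ F, cQ u = cQ v) → Ac R F)
    (h3 : ∀ q ∈ Q, ∃ m ∈ T0, c' m = cQ q) : Colr R (Fin 2) S := by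
  refine ⟨fun v => if v ∈ Q then cQ v else c' v, ?_⟩
  intro F hF hm
  by_contra hac
  obtain ⟨g, hgF, hg, a, ha, b, hb, hab⟩ := exists_circ_of_not_ac hirr hac
  have hgS : g ⊆ S := hgF.trans hF
  have hout : ∀ u ∈ g, ∃ v ∈ g, R u v := by
    intro u hu
    obtain ⟨v, hv, huv⟩ : ∃ v ∈ g, u ≠ v := by
      by_cases h : u = a
      · exact ⟨b, hb, fun h' => hab (h.symm.trans h')⟩
      · exact ⟨a, ha, h⟩
    rcases (hg.link hu hv huv).rc.cases_head with h | ⟨w, hw, h⟩
    · exact absurd h huv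
    · exact ⟨w, h.left, hw⟩
  by_cases hc1 : ∃ q ∈ g, q ∈ Q
  swap
  · push Not at hc1
    refine (h1 g (fun u hu => mem_union_right _ (mem_sdiff.mpr ⟨hgS hu, hc1 u hu⟩)) ?_).sink
      (Subset.refl _) ⟨a, ha⟩ hout
    intro u hu v hv
    have := hm u (hgF hu) v (hgF hv)
    simpa only [if_neg (hc1 u hu), if_neg (hc1 v hv)] using this
  by_cases hc2 : ∃ z ∈ g, z ∉ Q
  swap
  · push Not at hc2
    refine (h2 g hc2 ?_).sink (Subset.refl _) ⟨a, ha⟩ hout
    intro u hu v hv
    have := hm u (hgF hu) v (hgF hv)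
    simpa only [if_pos (hc2 u hu), if_pos (hc2 v hv)] using this
  obtain ⟨q, hqg, hqQ⟩ := hc1
  obtain ⟨z, hzg, hzQ⟩ := hc2
  obtain ⟨m, hm0, hmq⟩ := h3 q hqQ
  have hqz : q ≠ z := fun h => hzQ (h ▸ hqQ)
  obtain ⟨q', hq', z', hz', hzQ', hqz'⟩ : ∃ q' ∈ Q, ∃ z' ∈ g, z' ∉ Q ∧ R q' z' := by
    have key : z ∈ Q ∨ ∃ q' ∈ Q, ∃ z' ∈ g, z' ∉ Q ∧ R q' z' := by
      refine Rc.induct (p := fun b => b ∈ Q ∨ ∃ q' ∈ Q, ∃ z' ∈ g, z' ∉ Q ∧ R q' z')
        (fun _ => Or.inl hqQ) ?_ (hg.link hqg hzg hqz).rc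
      intro a b hqa ih hab hb
      rcases ih with h | h
      · by_cases hbQ : b ∈ Q
        · exact Or.inl hbQ
        · exact Or.inr ⟨a, h, b, hb, hbQ, hab⟩
      · exact Or.inr h
    rcases key with h | h
    · exact absurd h hzQ
    · exact h
  have hcol : ∀ u ∈ insert m (g \ Q), c' u = cQ q := by
    intro u hu
    rcases mem_insert.mp hu with h | h
    · rw [h]; exact hmq
    · obtain ⟨hu1, hu2⟩ := mem_sdiff.mp h
      have := hm u (hgF hu1) q (hgF hqg)
      simpa only [if_neg hu2, if_pos hqQ] using this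
  refine (h1 (insert m (g \ Q)) ?_ (fun u hu v hv => (hcol u hu).trans (hcol v hv).symm)).sink
    (Subset.refl _) ⟨m, mem_insert_self _ _⟩ ?_
  · intro u hu
    rcases mem_insert.mp hu with h | h
    · exact h ▸ mem_union_left _ hm0
    · obtain ⟨hu1, hu2⟩ := mem_sdiff.mp h
      exact mem_union_right _ (mem_sdiff.mpr ⟨hgS hu1, hu2⟩)
  · intro u hu
    rcases mem_insert.mp hu with h | h
    · subst h
      refine ⟨z', mem_insert_of_mem (mem_sdiff.mpr ⟨hz', hzQ'⟩), ?_⟩
      exact ((hmod z' (hgS hz') hzQ' u (hT0 hm0)).2).2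
        (((hmod z' (hgS hz') hzQ' q' hq').2).1 hqz')
    · obtain ⟨hu1, hu2⟩ := mem_sdiff.mp h
      obtain ⟨w, hw, huw⟩ := hout u hu1
      by_cases hwQ : w ∈ Q
      · refine ⟨m, mem_insert_self _ _, ?_⟩
        exact ((hmod u (hgS hu1) hu2 m (hT0 hm0)).1).2 (((hmod u (hgS hu1) hu2 w hwQ).1).1 huw)
      · exact ⟨w, mem_insert_of_mem (mem_sdiff.mpr ⟨hw, hwQ⟩), huw⟩

/-- a module containing two given non-adjacent vertices -/
theorem exists_module (hQt : Qt R S) {x y : V} (hx : x ∈ S) (hy : y ∈ S)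
    (h1 : ¬ R x y) (h2 : ¬ R y x) (hspl : ∃ A, Spl R S A) :
    ∃ Q ⊂ S, x ∈ Q ∧ y ∈ Q ∧
      ∀ z ∈ S, z ∉ Q → ∀ q ∈ Q, (R z q ↔ R z x) ∧ (R q z ↔ R x z) := by
  obtain ⟨B, hB, hxB⟩ : ∃ B, Spl R S B ∧ x ∈ B := by
    obtain ⟨A, hA⟩ := hspl
    by_cases hxA : x ∈ A
    · exact ⟨A, hA, hxA⟩
    · exact ⟨S \ A, hA.symm, mem_sdiff.mpr ⟨hx, hxA⟩⟩
  obtain ⟨hB1, hB2, hB3, hB4⟩ := hB
  set Cl : Finset V → Prop := fun T => x ∈ T ∧ ∀ p ∈ T, ∀ q ∈ S, q ∉ T → R p q ∨ R q p with hCl
  obtain ⟨Q, hQ, hmin⟩ := exists_min_image (S.powerset.filter Cl) card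
    ⟨B, by
      rw [mem_filter, mem_powerset]
      exact ⟨hB1, hxB, fun p hp q hq hqB => hB4 p hp q (mem_sdiff.mpr ⟨hq, hqB⟩)⟩⟩
  simp only [mem_filter, mem_powerset] at hQ hmin
  obtain ⟨hQS, hxQ, hQ3⟩ := hQ
  have hcB := hmin B ⟨hB1, hxB, fun p hp q hq hqB => hB4 p hp q (mem_sdiff.mpr ⟨hq, hqB⟩)⟩
  have hcS : B.card < S.card := by
    apply card_lt_card
    refine ⟨hB1, fun h => ?_⟩
    obtain ⟨w, hw⟩ := hB3
    exact (mem_sdiff.mp hw).2 (h (mem_sdiff.mp hw).1)
  have hyQ : y ∈ Q := by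
    by_contra hyQ
    rcases hQ3 x hxQ y hy hyQ with h | h
    · exact h1 h
    · exact h2 h
  refine ⟨Q, ⟨hQS, fun h => ?_⟩, hxQ, hyQ, ?_⟩
  · have := card_le_card h
    omega
  · intro z hz hzQ
    set Qz := Q.filter (fun q => (R z q ↔ R z x) ∧ (R q z ↔ R x z)) with hQz
    have hsub : Qz ⊆ Q := filter_subset _ _
    have hxz : x ∈ Qz := mem_filter.mpr ⟨hxQ, Iff.rfl, Iff.rfl⟩
    have hcl : Cl Qz := by
      refine ⟨hxz, ?_⟩
      intro p hp q hq hqz
      obtain ⟨hpQ, hp1, hp2⟩ := mem_filter.mp hp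
      by_cases hqQ : q ∈ Q
      · by_contra hcon
        rw [not_or] at hcon
        obtain ⟨hn1, hn2⟩ := hcon
        have hpq : p ≠ q := fun h => hqz (h ▸ hp)
        have hzp := hQ3 p hpQ z hz hzQ
        have hzq := hQ3 q hqQ z hz hzQ
        have hpS := hQS hpQ
        have hqS := hQS hqQ
        have no1 : ¬ (R p z ∧ R z q) := fun h => by
          rcases hQt p hpS z hz q hqS h.1 h.2 hpq with h' | h'
          · exact hn1 h'
          · exact hn2 h'
        have no2 : ¬ (R q z ∧ R z p) := fun h => by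
          rcases hQt q hqS z hz p hpS h.1 h.2 hpq.symm with h' | h'
          · exact hn2 h'
          · exact hn1 h'
        apply hqz
        refine mem_filter.mpr ⟨hqQ, ?_, ?_⟩
        · rw [← hp1]
          constructor
          · intro h
            rcases hzp with h' | h'
            · exact absurd ⟨h', h⟩ no1
            · exact h'
          · intro h
            rcases hzq with h' | h'
            · exact absurd ⟨h', h⟩ no2
            · exact h'
        · rw [← hp2]
          constructor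
          · intro h
            rcases hzp with h' | h'
            · exact h'
            · exact absurd ⟨h, h'⟩ no2
          · intro h
            rcases hzq with h' | h'
            · exact h'
            · exact absurd ⟨h, h'⟩ no1
      · exact hQ3 p hpQ q hq hqQ
    have hc := hmin Qz ⟨hsub.trans hQS, hcl⟩
    have heq : Qz = Q := eq_of_subset_of_card_le hsub hc
    intro q hq
    rw [← heq] at hq
    exact (mem_filter.mp hq).2

theorem qt_main [Fintype V] (hirr : ∀ v, ¬ R v v) : ∀ (n : ℕ) (S : Finset V), S.card ≤ n →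
    Qt R S → ¬ Neck (Rin R S) → Colr R (Fin 2) S := by
  intro n
  induction n with
  | zero =>
    intro S hn _ _
    exact colr_small (k := 0) hirr (by omega)
  | succ n ih =>
    intro S hn hQt hN
    by_cases h3 : S.card < 3
    · exact colr_small (k := 0) hirr h3
    have ihsub : ∀ T ⊂ S, Colr R (Fin 2) T := by
      intro T hT
      have hc := card_lt_card hT
      exact ih T (by omega) (hQt.mono hT.1)
        (fun h => hN (h.monoR (fun a b hab => ⟨hab.1, hT.1 hab.2.1, hT.1 hab.2.2⟩)))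
    by_cases hstr : ∀ u ∈ S, ∀ v ∈ S, Rc R S u v
    swap
    · push Not at hstr
      obtain ⟨u, hu, v, hv, huv⟩ := hstr
      exact colr_split hu hv huv ihsub
    by_cases hall : ∀ x ∈ S, ∀ y ∈ S, x ≠ y → R x y ∨ R y x
    · exact lis_main S.card R S (le_refl _) hirr
        (fun v _ x hx y hy _ _ hne => hall x hx y hy hne) hN
    push Not at hall
    obtain ⟨x, hx, y, hy, hne, hxy, hyx⟩ := hall
    obtain ⟨Q, hQS, hxQ, hyQ, hmod⟩ := exists_module hQt hx hy hxy hyx
      (qt_spl hirr S.card S (le_refl _) (by omega) hQt hstr)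
    have hprop : ∀ T0 ⊆ Q, (x ∉ T0 ∨ y ∉ T0) → T0 ∪ (S \ Q) ⊂ S := by
      intro T0 hT0 h
      refine ⟨union_subset (hT0.trans hQS.1) sdiff_subset, fun hsub => ?_⟩
      rcases h with h | h
      · rcases mem_union.mp (hsub hx) with h' | h'
        · exact h h'
        · exact (mem_sdiff.mp h').2 hxQ
      · rcases mem_union.mp (hsub hy) with h' | h'
        · exact h h'
        · exact (mem_sdiff.mp h').2 hyQ
    by_cases hac : Ac R Q
    · have hxs : ({x} : Finset V) ⊆ Q := by simpa using hxQ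
      obtain ⟨c', hc'⟩ := ihsub _ (hprop {x} hxs (Or.inr (by
        rw [mem_singleton]; exact hne.symm)))
      exact colr_module hirr hmod hxs hc' (cQ := fun _ => c' x)
        (fun F hF _ => hac.mono hF) (fun q _ => ⟨x, by simp, rfl⟩)
    · obtain ⟨T0, hT0, hT0ac, hT0adj⟩ := qt_small hirr (hQt.mono hQS.1) hac
      have hxyT : x ∉ T0 ∨ y ∉ T0 := by
        by_contra hcon
        push Not at hcon
        rcases hT0adj x hcon.1 y hcon.2 hne with h | h
        · exact hxy h
        · exact hyx h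
      obtain ⟨c', hc'⟩ := ihsub _ (hprop T0 hT0 hxyT)
      obtain ⟨cQ, hcQ⟩ := ihsub Q hQS
      refine colr_module hirr hmod hT0 hc' hcQ ?_
      intro q _
      by_contra hcon
      push Not at hcon
      apply hT0ac
      refine hc' T0 subset_union_left ?_
      intro u hu v hv
      have h1 := hcon u hu
      have h2 := hcon v hv
      have : ∀ s t w : Fin 2, s ≠ w → t ≠ w → s = t := by decide
      exact this _ _ _ h1 h2

/-- the ends of a directed path of length two are adjacent or comparable, inside `S` -/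
def Qc (R : V → V → Prop) (S : Finset V) : Prop :=
  ∀ x ∈ S, ∀ v ∈ S, ∀ y ∈ S, R x v → R v y → x ≠ y →
    R x y ∨ R y x ∨ Dom R S x y ∨ Dom R S y x

theorem Qc.mono {T : Finset V} (h : Qc R S) (hT : T ⊆ S) : Qc R T := by
  intro x hx v hv y hy hxv hvy hne
  rcases h x (hT hx) v (hT hv) y (hT hy) hxv hvy hne with h | h | h | h
  · exact Or.inl h
  · exact Or.inr (Or.inl h)
  · exact Or.inr (Or.inr (Or.inl (fun u hu => h u (hT hu))))
  · exact Or.inr (Or.inr (Or.inr (fun u hu => h u (hT hu))))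

theorem qc_main [Fintype V] (hirr : ∀ v, ¬ R v v) : ∀ (n : ℕ) (S : Finset V), S.card ≤ n →
    Qc R S → ¬ Neck (Rin R S) → Colr R (Fin 2) S := by
  intro n
  induction n with
  | zero =>
    intro S hn _ _
    exact colr_small (k := 0) hirr (by omega)
  | succ n ih =>
    intro S hn hC hN
    by_cases hL : Qt R S
    · exact qt_main hirr S.card S (le_refl _) hL hN
    unfold Qt at hL
    push Not at hL
    obtain ⟨x, hx, v, hv, y, hy, hxv, hvy, hne, hxy, hyx⟩ := hL
    have key : ∀ x ∈ S, ∀ y ∈ S, x ≠ y → ¬ R x y → ¬ R y x → Dom R S x y → Colr R (Fin 2) S := by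
      intro x hx y hy hne hxy hyx hD
      refine colr_dom hirr hx hy hne hxy hyx hD (ih (S.erase x) ?_
        (hC.mono (erase_subset _ _)) ?_)
      · have := card_erase_lt_of_mem hx
        omega
      · intro h
        exact hN (h.monoR (fun a b hab => ⟨hab.1, erase_subset _ _ hab.2.1,
          erase_subset _ _ hab.2.2⟩))
    rcases hC x hx v hv y hy hxv hvy hne with h | h | h | h
    · exact absurd h hxy
    · exact absurd h hyx
    · exact key x hx y hy hne hxy hyx h
    · exact key y hy x hx hne.symm hyx hxy h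

/-- the theorem for relations, directed paths -/
theorem qc_colr [Fintype V] (hirr : ∀ v, ¬ R v v) (hC : Qc R univ)
    (hN : ¬ Neck R) : Colr R (Fin 2) univ :=
  qc_main hirr (univ : Finset V).card univ (le_refl _) hC
    (fun h => hN (h.monoR (fun a b hab => hab.1)))

end quasi2

end Pool.Agent.Lib.NKT
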